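import Pool.Agent.Q276.MW.C1

/-! Small windows: the limit in `δ`. -/

set_option autoImplicit false

open MeasureTheory Filter Topology Set ComplexConjugate

namespace Pool.Agent.Q276.MW

open Pool.Agent.TH223.AP Pool.Agent.Q276.MW.TB
open Pool.Agent.W120.WM (ZC NT)

lemma sd_sq {δ : ℝ} (h0 : 0 ≤ δ) (h2 : δ ≤ 2) : sd δ ^ 2 = 1 - δ ^ 2 / 4 := by
  unfold sd
  rw [mul_pow, Real.sq_sqrt (by linarith), Real.sq_sqrt (by linarith)]
  ring

lemma sd_nonneg (δ : ℝ) : 0 ≤ sd δ := mul_nonneg (Real.sqrt_nonneg _) (Real.sqrt_nonneg _)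

lemma sd_le_one {δ : ℝ} (h0 : 0 ≤ δ) (h2 : δ ≤ 2) : sd δ ≤ 1 := by
  have h1 := sd_sq h0 h2
  have h3 := sd_nonneg δ
  by_contra hcon
  push Not at hcon
  nlinarith [sq_nonneg δ]

lemma sd_low {δ : ℝ} (h0 : 0 ≤ δ) (h2 : δ ≤ 2) : 2 - 2 * sd δ ≤ δ ^ 2 / 2 := by
  have h1 := sd_sq h0 h2
  have h3 := sd_nonneg δ
  have h4 := sd_le_one h0 h2
  nlinarith

lemma sd_tendsto : Tendsto sd (𝓝[>] 0) (𝓝 1) := by
  have h : ContinuousAt sd 0 := by
    unfold sd
    fun_prop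
  have h1 := h.tendsto
  have h2 : sd 0 = 1 := by simp [sd]
  rw [h2] at h1
  exact h1.mono_left nhdsWithin_le_nhds

lemma sd_small : Tendsto (fun δ => (2 - 2 * sd δ) / δ) (𝓝[>] 0) (𝓝 0) := by
  have h1 : Tendsto (fun δ : ℝ => δ / 2) (𝓝[>] 0) (𝓝 0) := by
    have : Tendsto (fun δ : ℝ => δ / 2) (𝓝 0) (𝓝 (0 / 2)) := tendsto_id.div_const 2
    rw [zero_div] at this
    exact this.mono_left nhdsWithin_le_nhds
  refine squeeze_zero' ?_ ?_ h1
  · filter_upwards [Ioo_mem_nhdsGT (show (0:ℝ) < 1 by norm_num)] with δ hδ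
    have := sd_le_one hδ.1.le (by linarith [hδ.2])
    exact div_nonneg (by linarith) hδ.1.le
  · filter_upwards [Ioo_mem_nhdsGT (show (0:ℝ) < 1 by norm_num)] with δ hδ
    have := sd_low hδ.1.le (by linarith [hδ.2])
    rw [div_le_iff₀ hδ.1]
    nlinarith

lemma hd_slope : Tendsto (fun δ => hd δ / δ) (𝓝[>] 0) (𝓝 1) := by
  have h1 : HasDerivAt hd 1 0 := by
    unfold hd
    have e1 : HasDerivAt (fun δ : ℝ => 1 + δ / 2) (1 / 2) 0 := by
      simpa using ((hasDerivAt_id (0:ℝ)).div_const 2).const_add 1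
    have e2 : HasDerivAt (fun δ : ℝ => 1 - δ / 2) (-(1 / 2)) 0 := by
      simpa using ((hasDerivAt_id (0:ℝ)).div_const 2).const_sub 1
    have e3 := e1.log (by norm_num)
    have e4 := e2.log (by norm_num)
    refine (e3.sub e4).congr_deriv ?_
    norm_num
  have h2 := h1.tendsto_slope_zero_right
  have h3 : hd 0 = 0 := by simp [hd]
  simp only [zero_add, h3, sub_zero, smul_eq_mul] at h2
  refine h2.congr fun δ => ?_
  rw [inv_mul_eq_div]

lemma hd_pos {δ : ℝ} (h0 : 0 < δ) (h2 : δ < 2) : 0 < hd δ := by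
  unfold hd
  have h1 : 0 < Real.log (1 + δ / 2) := Real.log_pos (by linarith)
  have h3 : Real.log (1 - δ / 2) ≤ 0 := Real.log_nonpos (by linarith) (by linarith)
  linarith

lemma hd_tendsto : Tendsto hd (𝓝[>] 0) (𝓝[>] 0) := by
  rw [tendsto_nhdsWithin_iff]
  constructor
  · have h : ContinuousAt hd 0 := by
      unfold hd
      refine ContinuousAt.sub (ContinuousAt.log (by fun_prop) (by norm_num))
        (ContinuousAt.log (by fun_prop) (by norm_num))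
    have h1 := h.tendsto
    have h2 : hd 0 = 0 := by simp [hd]
    rw [h2] at h1
    exact h1.mono_left nhdsWithin_le_nhds
  · filter_upwards [Ioo_mem_nhdsGT (show (0:ℝ) < 1 by norm_num)] with δ hδ
    exact hd_pos hδ.1 (by linarith [hδ.2])

lemma hd_le {δ : ℝ} (h0 : 0 < δ) (h1 : δ ≤ 1) : hd δ ≤ 2 * δ := by
  have e1 : 0 < 1 - δ / 2 := by linarith
  have e2 : 0 < 1 + δ / 2 := by linarith
  unfold hd
  rw [← Real.log_div e2.ne' e1.ne']
  have h2 := Real.log_le_sub_one_of_pos (div_pos e2 e1)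
  refine h2.trans ?_
  rw [div_sub_one e1.ne', div_le_iff₀ e1]
  nlinarith

/-- the inverse of `hd` -/
noncomputable def ed (h : ℝ) : ℝ := 2 * (Real.exp h - 1) / (Real.exp h + 1)

lemma ed_pos {h : ℝ} (hh : 0 < h) : 0 < ed h := by
  have h1 : 1 < Real.exp h := Real.one_lt_exp_iff.2 hh
  unfold ed
  exact div_pos (by linarith) (by linarith)

lemma ed_lt {h : ℝ} : ed h < 2 := by
  have h1 := Real.exp_pos h
  unfold ed
  rw [div_lt_iff₀ (by linarith)]
  linarith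

lemma hd_ed {h : ℝ} : hd (ed h) = h := by
  have h1 := Real.exp_pos h
  unfold hd ed
  have e1 : 1 + 2 * (Real.exp h - 1) / (Real.exp h + 1) / 2 = 2 * Real.exp h / (Real.exp h + 1) := by
    field_simp
    ring
  have e2 : 1 - 2 * (Real.exp h - 1) / (Real.exp h + 1) / 2 = 2 / (Real.exp h + 1) := by
    field_simp
    ring
  rw [e1, e2, ← Real.log_div (by positivity) (by positivity)]
  have e3 : 2 * Real.exp h / (Real.exp h + 1) / (2 / (Real.exp h + 1)) = Real.exp h := by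
    field_simp
  rw [e3, Real.log_exp]

lemma ed_le {h : ℝ} (hh : 0 < h) (h1 : h ≤ 1 / 2) : ed h ≤ 2 * h := by
  have e1 : Real.exp h * (1 - h) ≤ 1 := by
    have e2 := Real.add_one_le_exp (-h)
    have e3 : Real.exp h * (1 - h) ≤ Real.exp h * Real.exp (-h) := by
      refine mul_le_mul_of_nonneg_left (by linarith) (Real.exp_pos h).le
    rwa [← Real.exp_add, add_neg_cancel, Real.exp_zero] at e3
  have e4 : 1 ≤ Real.exp h := Real.one_le_exp hh.le
  have e5 : Real.exp h - 1 ≤ 2 * h := by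
    have e6 : Real.exp h ≤ 2 := by nlinarith
    nlinarith
  unfold ed
  rw [div_le_iff₀ (by linarith)]
  nlinarith

lemma ed_tendsto : Tendsto ed (𝓝[>] 0) (𝓝[>] 0) := by
  rw [tendsto_nhdsWithin_iff]
  constructor
  · have h : ContinuousAt ed 0 := by
      unfold ed
      refine ContinuousAt.div (by fun_prop) (by fun_prop) ?_
      rw [Real.exp_zero]
      norm_num
    have h1 := h.tendsto
    have h2 : ed 0 = 0 := by simp [ed]
    rw [h2] at h1
    exact h1.mono_left nhdsWithin_le_nhds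
  · filter_upwards [self_mem_nhdsWithin] with h hh
    exact ed_pos hh

lemma GG_of_DL (hZ : ZC) {κ : ℝ} (h : Tendsto (fun δ => DL δ / δ) (𝓝[>] 0) (𝓝 κ)) :
    Tendsto (fun x => GG dz tz x / x) (𝓝[>] 0) (𝓝 κ) := by
  have h1 : Tendsto (fun δ => (DL δ / δ - (2 - 2 * sd δ) / δ * WW dz tz) / (sd δ * (hd δ / δ))) (𝓝[>] 0)
      (𝓝 ((κ - 0 * WW dz tz) / (1 * 1))) :=
    (h.sub (sd_small.mul_const _)).div (sd_tendsto.mul hd_slope) (by norm_num)
  have h2 : (κ - 0 * WW dz tz) / (1 * 1) = κ := by ring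
  rw [h2] at h1
  have h3 : Tendsto (fun δ => GG dz tz (hd δ) / hd δ) (𝓝[>] 0) (𝓝 κ) := by
    refine h1.congr' ?_
    filter_upwards [Ioo_mem_nhdsGT (show (0:ℝ) < 1 by norm_num)] with δ hδ
    have h4 := DL_GG hZ hδ.1 (by linarith [hδ.2])
    have h5 := hd_pos hδ.1 (by linarith [hδ.2])
    have h6 : sd δ ≠ 0 := by
      have h7 := sd_sq hδ.1.le (by linarith [hδ.2])
      intro h8
      rw [h8] at h7
      nlinarith [hδ.1, hδ.2]
    have h9 := hδ.1.ne'
    rw [h4]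
    field_simp
    ring
  refine (h3.comp ed_tendsto).congr fun x => ?_
  simp only [Function.comp]
  rw [hd_ed]

lemma DL_of_GG (hZ : ZC) {κ : ℝ} (h : Tendsto (fun x => GG dz tz x / x) (𝓝[>] 0) (𝓝 κ)) :
    Tendsto (fun δ => DL δ / δ) (𝓝[>] 0) (𝓝 κ) := by
  have h1 : Tendsto (fun δ => sd δ * (GG dz tz (hd δ) / hd δ) * (hd δ / δ) +
      (2 - 2 * sd δ) / δ * WW dz tz) (𝓝[>] 0) (𝓝 (1 * κ * 1 + 0 * WW dz tz)) :=
    ((sd_tendsto.mul (h.comp hd_tendsto)).mul hd_slope).add (sd_small.mul_const _)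
  have h2 : 1 * κ * 1 + 0 * WW dz tz = κ := by ring
  rw [h2] at h1
  refine h1.congr' ?_
  filter_upwards [Ioo_mem_nhdsGT (show (0:ℝ) < 1 by norm_num)] with δ hδ
  have h4 := DL_GG hZ hδ.1 (by linarith [hδ.2])
  have h5 := hd_pos hδ.1 (by linarith [hδ.2])
  have h9 := hδ.1.ne'
  rw [h4]
  field_simp

/-- asymptotics for small windows and the moment -/
theorem DL_iff_JT (hZ : ZC) (κ : ℝ) : Tendsto (fun δ => DL δ / δ) (𝓝[>] 0) (𝓝 κ) ↔
    Tendsto (fun T => JT T / T) atTop (𝓝 (κ / (2 * Real.pi))) := by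
  have H := HY_of_ZC hZ
  have hpi := Real.pi_ne_zero
  constructor
  · intro h
    have h1 := NN_lim H (St_of_GG H (GG_of_DL hZ h))
    have h2 := h1.div_const 2
    have h3 : 2 * (κ / 2) / Real.pi / 2 = κ / (2 * Real.pi) := by field_simp
    rw [h3] at h2
    refine h2.congr fun T => ?_
    rw [NN_eq hZ.1]
    ring
  · intro h
    have h1 : Tendsto (fun T : ℝ => NN dz tz T / T) atTop (𝓝 (κ / Real.pi)) := by
      have h2 := h.const_mul 2
      have h3 : 2 * (κ / (2 * Real.pi)) = κ / Real.pi := by field_simp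
      rw [h3] at h2
      refine h2.congr fun T => ?_
      rw [NN_eq hZ.1]
      ring
    have h2 := GG_of_St H (St_of_NN H h1)
    have h3 : 2 * (κ / Real.pi * Real.pi / 2) = κ := by field_simp
    rw [h3] at h2
    exact DL_of_GG hZ h2

/-- a bound for the moment gives the condition on the zeros -/
lemma ZC_of_JT (hS : SZ) {C β : ℝ} (hβ0 : 0 ≤ β) (hβ : β < 2) (h : ∀ T : ℝ, 1 ≤ T → JT T ≤ C * T ^ β) :
    (∀ v : ℝ, 0 ≤ v → NN dz tz v ≤ 2 * C * (1 + v) ^ β) ∧ 0 ≤ C ∧ ZC := by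
  have hC0 : 0 ≤ C := by
    have h1 := h 1 le_rfl
    rw [Real.one_rpow, mul_one] at h1
    exact (JT_nonneg 1).trans h1
  have hmono : ∀ v : ℝ, v ≤ 1 → JT v ≤ JT 1 := by
    intro v hv
    have h1 := NN_eq hS v
    have h2 := NN_eq hS 1
    have h3 : NN dz tz v ≤ NN dz tz 1 := by
      unfold NN
      refine (ind_sm v).tsum_le_tsum (fun i => ?_) (ind_sm 1)
      have h4 := dz_nonneg i
      by_cases h5 : tz i ≤ v
      · rw [if_pos h5, if_pos (h5.trans hv)]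
      · rw [if_neg h5]
        split_ifs
        · exact h4
        · exact le_rfl
    linarith
  have hJ : ∀ v : ℝ, 0 ≤ v → JT v ≤ C * (1 + v) ^ β := by
    intro v hv
    rcases le_total v 1 with h1 | h1
    · have h2 := h 1 le_rfl
      rw [Real.one_rpow, mul_one] at h2
      have h3 : 1 ≤ (1 + v) ^ β := Real.one_le_rpow (by linarith) hβ0
      nlinarith [hmono v h1]
    · refine (h v h1).trans ?_
      have h3 : v ^ β ≤ (1 + v) ^ β := Real.rpow_le_rpow hv (by linarith) hβ0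
      gcongr
  refine ⟨fun v hv => ?_, hC0, ?_⟩
  · rw [NN_eq hS]
    linarith [hJ v hv]
  · refine ZC_of_sm hS (sm_of_bdd dz_nonneg tz_nonneg (C := 2 * C) hβ (by linarith) fun F v hv => ?_)
    have h1 := sum_le_JT hS F v
    linarith [hJ v hv]

lemma DL_le_four (hZ : ZC) {δ : ℝ} (hδ : 0 < δ) (hδ2 : δ < 2) : DL δ ≤ 4 * WW dz tz := by
  have H := HY_of_ZC hZ
  rw [DL_GG hZ hδ hδ2]
  have h1 := GG_le H (hd δ)
  have h2 := GG_nonneg H (hd δ)
  have h3 := sd_nonneg δ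
  have h4 := sd_le_one hδ.le hδ2.le
  have h5 := WW_nonneg H
  nlinarith

lemma DL_nonneg (δ : ℝ) : 0 ≤ DL δ := tsum_nonneg fun ρ => by positivity

/-- a bound for the moment gives a bound for the windows -/
theorem DL_of_JT (hS : SZ) {C α : ℝ} (hα0 : 0 < α) (hα : α ≤ 2)
    (h : ∀ T : ℝ, 1 ≤ T → JT T ≤ C * T ^ (2 - α)) : ZC ∧
    ∃ K : ℝ, 0 < K ∧ ∀ δ : ℝ, 0 < δ → δ < 2 → DL δ ≤ K * δ ^ α := by
  obtain ⟨hN, hC0, hZ⟩ := ZC_of_JT hS (β := 2 - α) (by linarith) (by linarith) h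
  refine ⟨hZ, ?_⟩
  have H := HY_of_ZC hZ
  obtain ⟨W, hW⟩ : ∃ W : ℝ, W = WW dz tz := ⟨_, rfl⟩
  have hW0 : 0 ≤ W := hW ▸ WW_nonneg H
  have hKb := Kb_nonneg (2 - α)
  obtain ⟨K1, hK1⟩ : ∃ K1 : ℝ, K1 = 8 * (2 * C) * Kb (2 - α) := ⟨_, rfl⟩
  have hK10 : 0 ≤ K1 := by rw [hK1]; positivity
  refine ⟨4 * K1 + 16 * W + 1, by positivity, fun δ hδ hδ2 => ?_⟩
  rcases le_total δ (1 / 2) with h1 | h1
  · have h2 := hd_le hδ (by linarith)
    have h3 := hd_pos hδ hδ2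
    have h4 := GG_le_of_NN H (C := 2 * C) (β := 2 - α) (by linarith) (by linarith) (by linarith) hN h3
      (by linarith)
    have e1 : 2 - (2 - α) = α := by ring
    rw [e1, ← hK1] at h4
    have h5 : hd δ ^ α ≤ 4 * δ ^ α := by
      calc hd δ ^ α ≤ (2 * δ) ^ α := Real.rpow_le_rpow h3.le h2 hα0.le
        _ = 2 ^ α * δ ^ α := Real.mul_rpow (by norm_num) hδ.le
        _ ≤ 4 * δ ^ α := by
          have : (2:ℝ) ^ α ≤ 2 ^ (2:ℝ) := Real.rpow_le_rpow_of_exponent_le (by norm_num) hα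
          have e2 : (2:ℝ) ^ (2:ℝ) = 4 := by
            rw [Real.rpow_two]
            norm_num
          rw [e2] at this
          gcongr
    rw [DL_GG hZ hδ hδ2, ← hW]
    have h6 := sd_le_one hδ.le hδ2.le
    have h7 := sd_low hδ.le hδ2.le
    have h8 := GG_nonneg H (hd δ)
    have h9 : δ ^ 2 ≤ δ ^ α := by
      have : δ ^ (2:ℝ) ≤ δ ^ α := Real.rpow_le_rpow_of_exponent_ge hδ (by linarith) hα
      rwa [Real.rpow_two] at this
    have h10 : sd δ * GG dz tz (hd δ) ≤ GG dz tz (hd δ) := mul_le_of_le_one_left h8 h6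
    have h11 : GG dz tz (hd δ) ≤ K1 * (4 * δ ^ α) := h4.trans (by gcongr)
    have h12 : (2 - 2 * sd δ) * W ≤ δ ^ α / 2 * W := by
      refine mul_le_mul_of_nonneg_right ?_ hW0
      linarith
    have h13 : 0 ≤ δ ^ α := Real.rpow_nonneg hδ.le α
    nlinarith [mul_nonneg h13 hW0]
  · have h2 := DL_le_four hZ hδ hδ2
    rw [← hW] at h2
    have h3 : 1 / 4 ≤ δ ^ α := by
      have e1 : (1 / 2 : ℝ) ^ α ≤ δ ^ α := Real.rpow_le_rpow (by norm_num) h1 hα0.le
      have e2 : (1 / 2 : ℝ) ^ (2:ℝ) ≤ (1 / 2 : ℝ) ^ α :=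
        Real.rpow_le_rpow_of_exponent_ge (by norm_num) (by norm_num) hα
      rw [Real.rpow_two] at e2
      norm_num at e2
      linarith
    have h13 : 0 ≤ δ ^ α := Real.rpow_nonneg hδ.le α
    nlinarith [mul_nonneg h13 hW0, mul_nonneg h13 hK10, mul_le_mul_of_nonneg_left h3 hW0]

/-- a bound for the windows gives a bound for the moment -/
theorem JT_of_DL (hZ : ZC) {K δ0 α : ℝ} (hα : α ≤ 2) (hδ0 : 0 < δ0)
    (h : ∀ δ : ℝ, 0 < δ → δ < δ0 → δ < 2 → DL δ ≤ K * δ ^ α) (hα0 : 0 < α) :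
    ∃ C : ℝ, ∀ T : ℝ, 1 ≤ T → JT T ≤ C * T ^ (2 - α) := by
  have H := HY_of_ZC hZ
  obtain ⟨x0, hx0⟩ : ∃ x0 : ℝ, x0 = min (1 / 4) (δ0 / 4) := ⟨_, rfl⟩
  have hx00 : 0 < x0 := by rw [hx0]; positivity
  have hx1 : x0 ≤ 1 / 4 := hx0 ▸ min_le_left _ _
  have hx2 : x0 ≤ δ0 / 4 := hx0 ▸ min_le_right _ _
  obtain ⟨T0, hT0⟩ : ∃ T0 : ℝ, T0 = 1 / x0 := ⟨_, rfl⟩
  have hT00 : 0 < T0 := by rw [hT0]; positivity
  have hN1 := NN_nonneg H 1
  have hN0 := NN_nonneg H T0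
  refine ⟨NN dz tz T0 + NN dz tz 1 + 5 / 2 * (8 * |K|), fun T hT => ?_⟩
  have hTβ : 1 ≤ T ^ (2 - α) := Real.one_le_rpow hT (by linarith)
  have hJ : JT T ≤ NN dz tz T := by
    rw [NN_eq hZ.1]
    linarith [JT_nonneg T]
  refine hJ.trans ?_
  rcases le_total T T0 with h1 | h1
  · have h2 := NN_mono H h1
    nlinarith [abs_nonneg K, mul_nonneg hN1 (by linarith : 0 ≤ T ^ (2 - α)),
      mul_nonneg (abs_nonneg K) (by linarith : 0 ≤ T ^ (2 - α))]
  · have h2 := NN_le_GG H hT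
    obtain ⟨x, hx⟩ : ∃ x : ℝ, x = 1 / T := ⟨_, rfl⟩
    have hT' : 0 < T := by linarith
    have hx' : 0 < x := by rw [hx]; positivity
    have hxx : x ≤ x0 := by
      rw [hx, div_le_iff₀ hT']
      rw [hT0, div_le_iff₀ hx00] at h1
      linarith
    rw [← hx] at h2
    have e1 := ed_pos hx'
    have e2 := ed_le hx' (by linarith)
    have e3 := h (ed x) e1 (by linarith) ed_lt
    rw [DL_GG hZ e1 ed_lt, hd_ed] at e3
    have e4 := sd_low e1.le (by linarith)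
    have e5 := sd_le_one e1.le (by linarith)
    have e6 := WW_nonneg H
    have e7 := GG_nonneg H x
    have e8 : 1 / 2 ≤ sd (ed x) := by nlinarith
    have e9 : GG dz tz x ≤ 2 * (K * ed x ^ α) := by nlinarith
    have e10 : ed x ^ α ≤ 4 * x ^ α := by
      calc ed x ^ α ≤ (2 * x) ^ α := Real.rpow_le_rpow e1.le e2 hα0.le
        _ = 2 ^ α * x ^ α := Real.mul_rpow (by norm_num) hx'.le
        _ ≤ 4 * x ^ α := by
          have : (2:ℝ) ^ α ≤ 2 ^ (2:ℝ) := Real.rpow_le_rpow_of_exponent_le (by norm_num) hα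
          have e2 : (2:ℝ) ^ (2:ℝ) = 4 := by
            rw [Real.rpow_two]
            norm_num
          rw [e2] at this
          gcongr
    have e11 : K * ed x ^ α ≤ |K| * (4 * x ^ α) :=
      (mul_le_mul_of_nonneg_right (le_abs_self K) (Real.rpow_nonneg e1.le α)).trans
        (mul_le_mul_of_nonneg_left e10 (abs_nonneg K))
    have e12 : T ^ 2 * x ^ α = T ^ (2 - α) := by
      rw [hx, one_div, Real.inv_rpow hT'.le, Real.rpow_sub hT', Real.rpow_two]
      rfl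
    have e13 : 5 / 2 * T ^ 2 * GG dz tz x ≤ 5 / 2 * (8 * |K|) * T ^ (2 - α) := by
      have e14 : GG dz tz x ≤ 8 * |K| * x ^ α := by linarith
      calc 5 / 2 * T ^ 2 * GG dz tz x ≤ 5 / 2 * T ^ 2 * (8 * |K| * x ^ α) := by gcongr
        _ = 5 / 2 * (8 * |K|) * (T ^ 2 * x ^ α) := by ring
        _ = _ := by rw [e12]
    nlinarith [mul_nonneg hN0 (by linarith : 0 ≤ T ^ (2 - α))]

end Pool.Agent.Q276.MW
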