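import Pool.Agent.TH223.AP.A2

/-! Mean squares of combinations of shifts of a function (macroscopic windows): real variable lemmas. -/

set_option autoImplicit false

open MeasureTheory Filter Topology Set

namespace Pool.Agent.Q276.MW

open Pool.Agent.TH223.AP

/-- measurable and bounded on bounded intervals -/
structure LC (f : ℝ → ℝ) : Prop where
  meas : Measurable f
  bdd : ∀ V : ℝ, ∃ B : ℝ, ∀ v ∈ Icc (-V) V, |f v| ≤ B

namespace LC

variable {f g : ℝ → ℝ}

lemma ii (hf : LC f) (a b : ℝ) : IntervalIntegrable f volume a b := by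
  obtain ⟨B, hB⟩ := hf.bdd (max |a| |b|)
  rw [intervalIntegrable_iff]
  refine Measure.integrableOn_of_bounded (M := B) (by simp [uIoc]) hf.meas.aestronglyMeasurable ?_
  refine (ae_restrict_mem measurableSet_uIoc).mono fun v hv => ?_
  rw [Real.norm_eq_abs]
  refine hB v ?_
  rw [uIoc, mem_Ioc] at hv
  have h1 := neg_abs_le a
  have h2 := neg_abs_le b
  have h3 := le_abs_self a
  have h4 := le_abs_self b
  have h5 := le_max_left |a| |b|
  have h6 := le_max_right |a| |b|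
  rcases le_total a b with h | h
  · rw [min_eq_left h, max_eq_right h] at hv
    exact ⟨by linarith [hv.1], by linarith [hv.2]⟩
  · rw [min_eq_right h, max_eq_left h] at hv
    exact ⟨by linarith [hv.1], by linarith [hv.2]⟩

lemma comp (hf : LC f) {φ : ℝ → ℝ} (hφ : Continuous φ) : LC (fun v => φ (f v)) := by
  refine ⟨hφ.measurable.comp hf.meas, fun V => ?_⟩
  obtain ⟨B, hB⟩ := hf.bdd V
  obtain ⟨C, hC⟩ := isCompact_Icc.exists_bound_of_continuousOn (hφ.continuousOn (s := Icc (-B) B))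
  exact ⟨C, fun v hv => hC _ (abs_le.1 (hB v hv))⟩

lemma of_cont (hg : Continuous g) : LC g := by
  refine ⟨hg.measurable, fun V => ?_⟩
  obtain ⟨C, hC⟩ := isCompact_Icc.exists_bound_of_continuousOn (hg.continuousOn (s := Icc (-V) V))
  exact ⟨C, fun v hv => hC v hv⟩

lemma add (hf : LC f) (hg : LC g) : LC (fun v => f v + g v) := by
  refine ⟨hf.meas.add hg.meas, fun V => ?_⟩
  obtain ⟨B, hB⟩ := hf.bdd V
  obtain ⟨C, hC⟩ := hg.bdd V
  exact ⟨B + C, fun v hv => (abs_add_le _ _).trans (add_le_add (hB v hv) (hC v hv))⟩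

lemma sub (hf : LC f) (hg : LC g) : LC (fun v => f v - g v) := by
  refine ⟨hf.meas.sub hg.meas, fun V => ?_⟩
  obtain ⟨B, hB⟩ := hf.bdd V
  obtain ⟨C, hC⟩ := hg.bdd V
  exact ⟨B + C, fun v hv => (abs_sub _ _).trans (add_le_add (hB v hv) (hC v hv))⟩

lemma sq (hf : LC f) : LC (fun v => f v ^ 2) := hf.comp (φ := fun t => t ^ 2) (by fun_prop)

lemma const_mul (c : ℝ) (hf : LC f) : LC (fun v => c * f v) :=
  hf.comp (φ := fun t => c * t) (by fun_prop)

lemma shift (c : ℝ) (hf : LC f) : LC (fun v => f (v + c)) := by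
  refine ⟨hf.meas.comp (measurable_id.add_const c), fun V => ?_⟩
  obtain ⟨B, hB⟩ := hf.bdd (V + |c|)
  refine ⟨B, fun v hv => hB _ ⟨?_, ?_⟩⟩
  · linarith [hv.1, neg_abs_le c]
  · linarith [hv.2, le_abs_self c]

/-- `‖f - P‖²` for a continuous complex `P` -/
lemma normsq (hf : LC f) {P : ℝ → ℂ} (hP : Continuous P) :
    LC (fun v => ‖((f v : ℝ) : ℂ) - P v‖ ^ 2) := by
  have h1 : (fun v => ‖((f v : ℝ) : ℂ) - P v‖ ^ 2) = fun v => (f v - (P v).re) ^ 2 + (P v).im ^ 2 := by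
    funext v
    exact norm_sub_sq _ _
  rw [h1]
  exact ((hf.sub (of_cont (Complex.continuous_re.comp hP))).sq).add
    ((of_cont (Complex.continuous_im.comp hP)).sq)

end LC

lemma mn_mono' {g h : ℝ → ℝ} {V : ℝ} (hV : 0 < V) (hg : LC g) (hh : LC h) (hle : ∀ v, g v ≤ h v) :
    mn g V ≤ mn h V :=
  mn_mono hV (hg.ii 0 V) (hh.ii 0 V) (fun v _ => hle v)

/-- the mean of a shift -/
lemma mn_shift {F : ℝ → ℝ} (hF : LC F) (c : ℝ) {L : ℝ} (h : Tendsto (mn F) atTop (𝓝 L)) :
    Tendsto (mn fun v => F (v + c)) atTop (𝓝 L) := by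
  have h1 : Tendsto (fun V : ℝ => mn F (V + c)) atTop (𝓝 L) :=
    h.comp (tendsto_atTop_add_const_right _ _ tendsto_id)
  have h2 : Tendsto (fun V : ℝ => V⁻¹) atTop (𝓝 0) := tendsto_inv_atTop_zero
  have h3 : Tendsto (fun V : ℝ => (1 + c * V⁻¹) * mn F (V + c) - (∫ v in (0:ℝ)..c, F v) * V⁻¹) atTop
      (𝓝 ((1 + c * 0) * L - (∫ v in (0:ℝ)..c, F v) * 0)) :=
    ((tendsto_const_nhds.add (h2.const_mul c)).mul h1).sub (h2.const_mul _)
  rw [mul_zero, mul_zero, add_zero, one_mul, sub_zero] at h3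
  refine h3.congr' ?_
  filter_upwards [eventually_gt_atTop (0:ℝ), eventually_gt_atTop (-c)] with V hV hVc
  have h4 : V + c ≠ 0 := by linarith
  unfold mn
  rw [intervalIntegral.integral_comp_add_right (fun v => F v), zero_add]
  have h5 := intervalIntegral.integral_add_adjacent_intervals (hF.ii 0 c) (hF.ii c (V + c))
  rw [← h5]
  field_simp
  ring

/-- contraction: a bound for the mean square of `α f(v + a) - β f(v + b)` gives one for `f` -/
lemma contraction {f : ℝ → ℝ} (hf : LC f) {a b α β : ℝ} (ha : 0 < a) (hb : b ≤ 0) (hα : 0 < α)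
    (hβ : 0 ≤ β) (hαβ : β < α) : ∃ A B : ℝ, 0 < A ∧ ∀ V : ℝ, a - b ≤ V →
      ∫ v in (0:ℝ)..V, f v ^ 2 ≤ A * (∫ v in (0:ℝ)..V, (α * f (v + a) - β * f (v + b)) ^ 2) + B := by
  obtain ⟨r, hr⟩ : ∃ r : ℝ, r = (β / α) ^ 2 := ⟨_, rfl⟩
  have hq : β / α < 1 := (div_lt_one hα).2 hαβ
  have hq0 : 0 ≤ β / α := div_nonneg hβ hα.le
  have hr0 : 0 ≤ r := hr ▸ sq_nonneg _
  have hr1 : r < 1 := by rw [hr]; nlinarith
  obtain ⟨η, hη⟩ : ∃ η : ℝ, η = (1 - r) / 2 := ⟨_, rfl⟩
  have hη0 : 0 < η := by rw [hη]; linarith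
  have hqr : (1 + η) * r ≤ (1 + r) / 2 := by
    rw [hη]; nlinarith
  obtain ⟨c, hc⟩ : ∃ c : ℝ, c = (1 + 1 / η) / α ^ 2 := ⟨_, rfl⟩
  have hc0 : 0 < c := by rw [hc]; positivity
  obtain ⟨g, hg⟩ : ∃ g : ℝ → ℝ, g = fun v => α * f (v + a) - β * f (v + b) := ⟨_, rfl⟩
  have hgL : LC g := by
    rw [hg]
    exact ((hf.shift a).const_mul α).sub ((hf.shift b).const_mul β)
  refine ⟨2 / (1 - r) * c, 2 / (1 - r) * ∫ v in (0:ℝ)..(a - b), f v ^ 2, by
    have : 0 < 1 - r := by linarith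
    positivity, fun V hV => ?_⟩
  have hint := fun x y => hf.sq.ii x y
  have h1 := intervalIntegral.integral_add_adjacent_intervals (hint 0 (a - b)) (hint (a - b) V)
  -- pointwise bound
  have hpt : ∀ u : ℝ, f u ^ 2 ≤ c * g (u - a) ^ 2 + (1 + r) / 2 * f (u - (a - b)) ^ 2 := by
    intro u
    have e1 : f u = (g (u - a) + β * f (u - (a - b))) / α := by
      rw [hg]
      have e2 : u - a + a = u := by ring
      have e3 : u - a + b = u - (a - b) := by ring
      simp only [e2, e3]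
      field_simp
      ring
    have e4 : f u ^ 2 = (g (u - a) / α + β / α * f (u - (a - b))) ^ 2 := by
      rw [e1]; ring
    rw [e4]
    have e5 : (g (u - a) / α + β / α * f (u - (a - b))) ^ 2 ≤
        (1 + 1 / η) * (g (u - a) / α) ^ 2 + (1 + η) * (β / α * f (u - (a - b))) ^ 2 := by
      have e6 : 0 ≤ ((1 / η) * (g (u - a) / α) - (β / α * f (u - (a - b)))) ^ 2 * η := by positivity
      have e7 : ((1 / η) * (g (u - a) / α) - (β / α * f (u - (a - b)))) ^ 2 * η =
          (1 / η) * (g (u - a) / α) ^ 2 - 2 * (g (u - a) / α) * (β / α * f (u - (a - b))) +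
            η * (β / α * f (u - (a - b))) ^ 2 := by
        field_simp
        ring
      rw [e7] at e6
      nlinarith
    refine e5.trans ?_
    have e8 : (1 + 1 / η) * (g (u - a) / α) ^ 2 = c * g (u - a) ^ 2 := by
      rw [hc]; field_simp
    have e9 : (1 + η) * (β / α * f (u - (a - b))) ^ 2 = ((1 + η) * r) * f (u - (a - b)) ^ 2 := by
      rw [hr]; ring
    rw [e8, e9]
    gcongr
  have hgs : ∀ x y, IntervalIntegrable (fun u => g (u - a) ^ 2) volume x y := fun x y => by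
    have := (hgL.shift (-a)).sq.ii x y
    simpa only [← sub_eq_add_neg] using this
  have hfs : ∀ x y, IntervalIntegrable (fun u => f (u - (a - b)) ^ 2) volume x y := fun x y => by
    have := (hf.shift (-(a - b))).sq.ii x y
    simpa only [← sub_eq_add_neg] using this
  have h2 : ∫ u in (a - b)..V, f u ^ 2 ≤ c * (∫ u in (a - b)..V, g (u - a) ^ 2) +
      (1 + r) / 2 * ∫ u in (a - b)..V, f (u - (a - b)) ^ 2 := by
    rw [← intervalIntegral.integral_const_mul, ← intervalIntegral.integral_const_mul,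
      ← intervalIntegral.integral_add ((hgs _ _).const_mul c) ((hfs _ _).const_mul _)]
    exact intervalIntegral.integral_mono hV (hint _ _)
      (((hgs _ _).const_mul c).add ((hfs _ _).const_mul _)) hpt
  rw [intervalIntegral.integral_comp_sub_right (fun u => g u ^ 2),
    intervalIntegral.integral_comp_sub_right (fun u => f u ^ 2), sub_self] at h2
  have h3 : ∫ u in (a - b - a)..(V - a), g u ^ 2 ≤ ∫ u in (0:ℝ)..V, g u ^ 2 := by
    refine intervalIntegral.integral_mono_interval (by linarith) (by linarith) (by linarith)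
      (Eventually.of_forall fun u => sq_nonneg _) (hgL.sq.ii 0 V)
  have h4 : ∫ u in (0:ℝ)..(V - (a - b)), f u ^ 2 ≤ ∫ u in (0:ℝ)..V, f u ^ 2 := by
    refine intervalIntegral.integral_mono_interval le_rfl (by linarith) (by linarith)
      (Eventually.of_forall fun u => sq_nonneg _) (hf.sq.ii 0 V)
  have h5 : (∫ u in (0:ℝ)..V, f u ^ 2) ≤ (∫ v in (0:ℝ)..(a - b), f v ^ 2) +
      c * (∫ u in (0:ℝ)..V, g u ^ 2) + (1 + r) / 2 * ∫ u in (0:ℝ)..V, f u ^ 2 := by
    have e1 := mul_le_mul_of_nonneg_left h3 hc0.le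
    have e2 := mul_le_mul_of_nonneg_left h4 (show 0 ≤ (1 + r) / 2 by linarith)
    linarith
  have h6 : (1 - r) / 2 * (∫ u in (0:ℝ)..V, f u ^ 2) ≤ (∫ v in (0:ℝ)..(a - b), f v ^ 2) +
      c * (∫ u in (0:ℝ)..V, g u ^ 2) := by linarith
  have h7 : (∫ u in (0:ℝ)..V, f u ^ 2) = 2 / (1 - r) * ((1 - r) / 2 * (∫ u in (0:ℝ)..V, f u ^ 2)) := by
    have : (1 - r) ≠ 0 := by linarith
    field_simp
  rw [h7]
  have h8 := mul_le_mul_of_nonneg_left h6 (show 0 ≤ 2 / (1 - r) by
    have : 0 < 1 - r := by linarith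
    positivity)
  refine h8.trans (le_of_eq ?_)
  rw [hg]
  ring

end Pool.Agent.Q276.MW
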