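import Pool.Agent.Q276.MW.A1
import Pool.Agent.TH223.AP.A5

/-! Mean squares of combinations of two shifts of `M(e^v) e^{-v/2}` under the weak Mertens hypothesis. -/

set_option autoImplicit false

open MeasureTheory Filter Topology Set

namespace Pool.Agent.Q276.MW

open Pool.Agent.TH223.AP
open Pool.Agent.H295R2 (JJ JW ww ee GR GR_zero GR_bound ee_mul zetaSup)
open Pool.Agent.W120.WM (ZC msq msq_eq NT)

lemma ft_LC : LC ft := by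
  refine ⟨ft_LB.meas, fun V => ?_⟩
  obtain ⟨B, hB⟩ := ft_LB.bdd V
  obtain ⟨C, hC⟩ : ∃ C : ℝ, C = |ft 0| := ⟨_, rfl⟩
  refine ⟨max B C, fun v hv => ?_⟩
  rcases lt_trichotomy v 0 with h | h | h
  · have h1 : ⌊Real.exp v⌋₊ = 0 := by
      rw [Nat.floor_eq_zero]
      exact Real.exp_lt_one_iff.2 h
    have h2 : ft v = 0 := by
      unfold ft
      rw [h1]
      simp
    rw [h2, abs_zero]
    have h3 : 0 ≤ C := hC ▸ abs_nonneg _
    exact h3.trans (le_max_right B C)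
  · rw [h, ← hC]
    exact le_max_right _ _
  · exact (hB v ⟨h, hv.2⟩).trans (le_max_left _ _)

lemma ee_cont (ρ : ℂ) : Continuous (ee ρ) := by
  unfold ee
  fun_prop

lemma es_cont (Z : Finset ℂ) (c : ℂ → ℂ) : Continuous fun v : ℝ => ∑ ρ ∈ Z, c ρ * ee ρ v :=
  continuous_finsetSum _ fun ρ _ => continuous_const.mul (ee_cont ρ)

/-- the mean square of an exponential sum -/
lemma mean_es (Z : Finset ℂ) (hZ : ∀ ρ ∈ Z, ρ.re = 1 / 2) (c : ℂ → ℂ) :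
    Tendsto (mn fun v => ‖∑ ρ ∈ Z, c ρ * ee ρ v‖ ^ 2) atTop (𝓝 (∑ ρ ∈ Z, ‖c ρ‖ ^ 2)) := by
  classical
  have h2 : Tendsto (fun V : ℝ => ∑ ρ ∈ Z, ∑ ρ' ∈ Z, c ρ * (starRingEnd ℂ) (c ρ') * (GR (ρ - ρ') V / V))
      atTop (𝓝 (∑ ρ ∈ Z, ∑ ρ' ∈ Z, c ρ * (starRingEnd ℂ) (c ρ') * (if ρ - ρ' = 0 then 1 else 0))) := by
    refine tendsto_finsetSum _ fun ρ hρ => tendsto_finsetSum _ fun ρ' hρ' => ?_
    refine (GR_lim ?_).const_mul _
    rw [Complex.sub_re, hZ ρ hρ, hZ ρ' hρ', sub_self]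
  have h3 := (Complex.continuous_re.tendsto _).comp h2
  have e2 : (∑ ρ ∈ Z, ∑ ρ' ∈ Z, c ρ * (starRingEnd ℂ) (c ρ') * (if ρ - ρ' = 0 then 1 else 0)).re =
      ∑ ρ ∈ Z, ‖c ρ‖ ^ 2 := by
    rw [Complex.re_sum]
    refine Finset.sum_congr rfl fun ρ hρ => ?_
    have e3 : ∑ ρ' ∈ Z, c ρ * (starRingEnd ℂ) (c ρ') * (if ρ - ρ' = 0 then 1 else 0) =
        c ρ * (starRingEnd ℂ) (c ρ) := by
      rw [Finset.sum_eq_single ρ]
      · simp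
      · intro ρ' _ hne
        rw [if_neg (sub_ne_zero.2 (Ne.symm hne)), mul_zero]
      · exact fun h => absurd hρ h
    rw [e3, mul_comm, ← Complex.normSq_eq_conj_mul_self, Complex.ofReal_re, Complex.normSq_eq_norm_sq]
  rw [e2] at h3
  refine h3.congr' ?_
  filter_upwards [eventually_gt_atTop (0:ℝ)] with V hV
  have hV' : (V : ℂ) ≠ 0 := by exact_mod_cast hV.ne'
  simp only [Function.comp]
  have h7 : (∑ ρ ∈ Z, ∑ ρ' ∈ Z, c ρ * (starRingEnd ℂ) (c ρ') * (GR (ρ - ρ') V / V)) =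
      (∑ ρ ∈ Z, ∑ ρ' ∈ Z, c ρ * (starRingEnd ℂ) (c ρ') * GR (ρ - ρ') V) / ((V : ℝ) : ℂ) := by
    rw [Finset.sum_div]
    refine Finset.sum_congr rfl fun ρ _ => ?_
    rw [Finset.sum_div]
    exact Finset.sum_congr rfl fun ρ' _ => by ring
  rw [h7, Complex.div_ofReal_re]
  unfold mn
  congr 1
  rw [intervalIntegral.integral_of_le hV.le]
  have hpt : ∀ s : ℝ, ‖∑ ρ ∈ Z, c ρ * ee ρ s‖ ^ 2 =
      (∑ ρ ∈ Z, ∑ ρ' ∈ Z, c ρ * (starRingEnd ℂ) (c ρ') * Complex.exp ((ρ - ρ') * s)).re := by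
    intro s
    have h1 : ((Complex.normSq (∑ ρ ∈ Z, c ρ * ee ρ s) : ℝ) : ℂ) =
        ∑ ρ ∈ Z, ∑ ρ' ∈ Z, c ρ * (starRingEnd ℂ) (c ρ') * Complex.exp ((ρ - ρ') * s) := by
      rw [Complex.normSq_eq_conj_mul_self, mul_comm, map_sum, Finset.sum_mul_sum]
      refine Finset.sum_congr rfl fun ρ _ => Finset.sum_congr rfl fun ρ' hρ' => ?_
      rw [map_mul, ← ee_mul (ρ := ρ) (hZ ρ' hρ') s]
      ring
    rw [← h1, Complex.ofReal_re, Complex.normSq_eq_norm_sq]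
  simp only [hpt]
  have hci : ∀ g : ℝ → ℂ, Continuous g → IntegrableOn g (Ioc 0 V) := fun g hg =>
    (hg.integrableOn_Icc (a := 0) (b := V)).mono_set Ioc_subset_Icc_self
  have i2 : IntegrableOn (fun s : ℝ => ∑ ρ ∈ Z, ∑ ρ' ∈ Z, c ρ * (starRingEnd ℂ) (c ρ') *
      Complex.exp ((ρ - ρ') * s)) (Ioc 0 V) := hci _ (by fun_prop)
  have h8 := integral_re i2
  simp only [RCLike.re_eq_complex_re] at h8
  rw [h8, integral_finsetSum _ (fun ρ _ => hci _ (by fun_prop))]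
  congr 1
  refine Finset.sum_congr rfl fun ρ _ => ?_
  rw [integral_finsetSum _ (fun ρ' _ => hci _ (by fun_prop))]
  refine Finset.sum_congr rfl fun ρ' _ => ?_
  rw [integral_const_mul]
  rfl

/-- the coefficients -/
noncomputable def cf (α β a b : ℝ) (ρ : ℂ) : ℂ := (α : ℂ) * ee ρ a - β * ee ρ b

lemma ee_add (ρ : ℂ) (v a : ℝ) : ee ρ (v + a) = ee ρ a * ee ρ v := by
  unfold ee
  rw [← Complex.exp_add]
  congr 1
  push_cast
  ring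

lemma norm_ee {ρ : ℂ} (h : ρ.re = 1 / 2) (v : ℝ) : ‖ee ρ v‖ = 1 := by
  unfold ee
  rw [Complex.norm_exp]
  have : ((ρ - 1 / 2) * (v : ℂ)).re = 0 := by
    rw [Complex.mul_re]
    simp [h]
  rw [this, Real.exp_zero]

lemma norm_cf_le {α β a b : ℝ} {ρ : ℂ} (h : ρ.re = 1 / 2) : ‖cf α β a b ρ‖ ≤ |α| + |β| := by
  unfold cf
  refine (norm_sub_le _ _).trans ?_
  rw [norm_mul, norm_mul, norm_ee h, norm_ee h, mul_one, mul_one, Complex.norm_real, Complex.norm_real,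
    Real.norm_eq_abs, Real.norm_eq_abs]

/-- the series -/
noncomputable def SG (α β a b : ℝ) : ℝ :=
  ∑' ρ : NT, 1 / ‖(ρ : ℂ) * deriv riemannZeta ρ‖ ^ 2 * ‖cf α β a b ρ‖ ^ 2

lemma SG_summable (hZ : ZC) (α β a b : ℝ) :
    Summable fun ρ : NT => 1 / ‖(ρ : ℂ) * deriv riemannZeta ρ‖ ^ 2 * ‖cf α β a b ρ‖ ^ 2 := by
  refine Summable.of_nonneg_of_le (fun ρ => by positivity) (fun ρ => ?_) (hZ.2.mul_right ((|α| + |β|) ^ 2))
  have h := norm_cf_le (α := α) (β := β) (a := a) (b := b) (hZ.1 ρ ρ.2).1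
  gcongr

theorem mean_shift (hZ : ZC) (α β a b : ℝ) :
    Tendsto (mn fun v => (α * ft (v + a) - β * ft (v + b)) ^ 2) atTop (𝓝 (SG α β a b)) := by
  classical
  rw [Metric.tendsto_nhds]
  intro ε hε
  obtain ⟨S, hS⟩ : ∃ S : ℝ, S = SG α β a b := ⟨_, rfl⟩
  have hS0 : 0 ≤ S := by
    rw [hS]
    exact tsum_nonneg fun ρ => by positivity
  obtain ⟨B, hB⟩ : ∃ B : ℝ, B = 2 * α ^ 2 + 2 * β ^ 2 := ⟨_, rfl⟩
  have hB0 : 0 ≤ B := by rw [hB]; positivity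
  -- parameters
  obtain ⟨η, hη⟩ : ∃ η : ℝ, η = ε / (4 * (S + 1)) := ⟨_, rfl⟩
  have hη0 : 0 < η := by rw [hη]; positivity
  obtain ⟨ξ, hξ⟩ : ∃ ξ : ℝ, ξ = ε / (8 * (1 + 1 / η) * (B + 1)) := ⟨_, rfl⟩
  have hξ0 : 0 < ξ := by rw [hξ]; positivity
  obtain ⟨ω, hω⟩ : ∃ ω : ℝ, ω = min (min 1 (ε / 8)) ξ := ⟨_, rfl⟩
  have hω0 : 0 < ω := by rw [hω]; positivity
  have hω1 : ω ≤ 1 := hω ▸ (min_le_left _ _).trans (min_le_left _ _)
  have hω2 : ω ≤ ε / 8 := hω ▸ (min_le_left _ _).trans (min_le_right _ _)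
  have hω3 : ω ≤ ξ := hω ▸ min_le_right _ _
  have h1 := Metric.tendsto_nhds.1 hZ.2.hasSum ω hω0
  have h2 := Metric.tendsto_nhds.1 (SG_summable hZ α β a b).hasSum ω hω0
  obtain ⟨u, hu1, hu2⟩ := (h1.and h2).exists
  obtain ⟨Z, hZdef⟩ : ∃ Z : Finset ℂ, Z = u.map (Function.Embedding.subtype _) := ⟨_, rfl⟩
  have hZN : ∀ ρ ∈ Z, ρ ∈ NT := by
    intro ρ hρ
    rw [hZdef, Finset.mem_map] at hρ
    obtain ⟨ρ', -, rfl⟩ := hρ
    exact ρ'.2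
  have hre : ∀ ρ ∈ Z, ρ.re = 1 / 2 := fun ρ hρ => (hZ.1 ρ (hZN ρ hρ)).1
  have hsum : ∀ F : ℂ → ℝ, ∑ ρ ∈ Z, F ρ = ∑ ρ ∈ u, F (ρ : ℂ) := by
    intro F
    rw [hZdef, Finset.sum_map]
    rfl
  have h3 : SS - ∑ ρ ∈ Z, 1 / ‖ρ * deriv riemannZeta ρ‖ ^ 2 < ω := by
    rw [hsum (fun ρ => 1 / ‖ρ * deriv riemannZeta ρ‖ ^ 2)]
    rw [Real.dist_eq, abs_lt] at hu1
    have := hu1.1
    unfold SS
    linarith
  have h4 : |∑ ρ ∈ Z, ‖ww ρ * cf α β a b ρ‖ ^ 2 - S| < ω := by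
    have e : ∑ ρ ∈ Z, ‖ww ρ * cf α β a b ρ‖ ^ 2 =
        ∑ ρ ∈ u, 1 / ‖(ρ : ℂ) * deriv riemannZeta ρ‖ ^ 2 * ‖cf α β a b ρ‖ ^ 2 := by
      rw [hsum (fun ρ => ‖ww ρ * cf α β a b ρ‖ ^ 2)]
      refine Finset.sum_congr rfl fun ρ _ => ?_
      rw [norm_mul, mul_pow, ww_sq]
    rw [e, hS]
    exact hu2
  -- the polynomial and the distance
  obtain ⟨P, hP⟩ : ∃ P : ℝ → ℂ, P = fun v => ∑ ρ ∈ Z, ww ρ * ee ρ v := ⟨_, rfl⟩
  obtain ⟨Q, hQ⟩ : ∃ Q : ℝ → ℂ, Q = fun v => ∑ ρ ∈ Z, (ww ρ * cf α β a b ρ) * ee ρ v := ⟨_, rfl⟩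
  have hPc : Continuous P := by rw [hP]; exact es_cont _ _
  have hQc : Continuous Q := by rw [hQ]; exact es_cont _ _
  have hQP : ∀ v, Q v = α * P (v + a) - β * P (v + b) := by
    intro v
    rw [hQ, hP]
    simp only
    rw [Finset.mul_sum, Finset.mul_sum, ← Finset.sum_sub_distrib]
    refine Finset.sum_congr rfl fun ρ _ => ?_
    rw [ee_add, ee_add]
    unfold cf
    ring
  have hd := dist_lim' hZ Z hZN
  have hdL : LC fun v => ‖((ft v : ℝ) : ℂ) - P v‖ ^ 2 := ft_LC.normsq hPc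
  have hd' : Tendsto (mn fun v => ‖((ft v : ℝ) : ℂ) - P v‖ ^ 2) atTop
      (𝓝 (SS - ∑ ρ ∈ Z, 1 / ‖ρ * deriv riemannZeta ρ‖ ^ 2)) := by
    rw [hP]
    exact hd
  have ha := mn_shift hdL a hd'
  have hb := mn_shift hdL b hd'
  have hq : Tendsto (mn fun v => ‖Q v‖ ^ 2) atTop (𝓝 (∑ ρ ∈ Z, ‖ww ρ * cf α β a b ρ‖ ^ 2)) := by
    rw [hQ]
    exact mean_es Z hre _
  have hqω : ∑ ρ ∈ Z, ‖ww ρ * cf α β a b ρ‖ ^ 2 < S + ω := by
    have := (abs_lt.1 h4).2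
    linarith
  obtain ⟨g, hg⟩ : ∃ g : ℝ → ℝ, g = fun v => α * ft (v + a) - β * ft (v + b) := ⟨_, rfl⟩
  have hgL : LC g := by
    rw [hg]
    exact ((ft_LC.shift a).const_mul α).sub ((ft_LC.shift b).const_mul β)
  have hgQ : ∀ v, ‖((g v : ℝ) : ℂ) - Q v‖ ^ 2 ≤
      2 * α ^ 2 * ‖((ft (v + a) : ℝ) : ℂ) - P (v + a)‖ ^ 2 +
        2 * β ^ 2 * ‖((ft (v + b) : ℝ) : ℂ) - P (v + b)‖ ^ 2 := by
    intro v
    have e1 : ((g v : ℝ) : ℂ) - Q v = α * (((ft (v + a) : ℝ) : ℂ) - P (v + a)) -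
        β * (((ft (v + b) : ℝ) : ℂ) - P (v + b)) := by
      rw [hg, hQP]
      push_cast
      ring
    rw [e1]
    obtain ⟨x, hx⟩ : ∃ x : ℝ, x = ‖((ft (v + a) : ℝ) : ℂ) - P (v + a)‖ := ⟨_, rfl⟩
    obtain ⟨y, hy⟩ : ∃ y : ℝ, y = ‖((ft (v + b) : ℝ) : ℂ) - P (v + b)‖ := ⟨_, rfl⟩
    have e2 := norm_sub_le ((α : ℂ) * (((ft (v + a) : ℝ) : ℂ) - P (v + a)))
      (β * (((ft (v + b) : ℝ) : ℂ) - P (v + b)))
    rw [norm_mul, norm_mul, Complex.norm_real, Complex.norm_real, Real.norm_eq_abs, Real.norm_eq_abs,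
      ← hx, ← hy] at e2
    rw [← hx, ← hy]
    have e3 := pow_le_pow_left₀ (norm_nonneg _) e2 2
    refine e3.trans ?_
    have e4 : (|α| * x + |β| * y) ^ 2 ≤ 2 * (|α| * x) ^ 2 + 2 * (|β| * y) ^ 2 := by
      nlinarith [sq_nonneg (|α| * x - |β| * y)]
    refine e4.trans (le_of_eq ?_)
    rw [mul_pow, mul_pow, sq_abs, sq_abs]
    ring
  have hQ2 : LC fun v => ‖Q v‖ ^ 2 := LC.of_cont (by fun_prop)
  have hfin : ∀ᶠ V : ℝ in atTop, dist (mn (fun v => g v ^ 2) V) S < ε := by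
    filter_upwards [ha.eventually (gt_mem_nhds h3), hb.eventually (gt_mem_nhds h3),
      hq.eventually (gt_mem_nhds hqω), Metric.tendsto_nhds.1 hq (ε / 8) (by positivity),
      eventually_gt_atTop (0:ℝ)] with V hVa hVb hVq hVq' hV
    have hk : LC fun v => η * ‖Q v‖ ^ 2 + (1 + 1 / η) * (2 * α ^ 2 * ‖((ft (v + a) : ℝ) : ℂ) - P (v + a)‖ ^ 2 +
        2 * β ^ 2 * ‖((ft (v + b) : ℝ) : ℂ) - P (v + b)‖ ^ 2) :=
      (hQ2.const_mul η).add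
        ((((hdL.shift a).const_mul (2 * α ^ 2)).add ((hdL.shift b).const_mul (2 * β ^ 2))).const_mul _)
    have h5 := abs_mn_sub_le (g := fun v => g v ^ 2) (h := fun v => ‖Q v‖ ^ 2) hV (hgL.sq.ii 0 V)
      (hQ2.ii 0 V) (hk.ii 0 V) (fun v _ => by
        have e1 : g v ^ 2 = ‖((g v : ℝ) : ℂ)‖ ^ 2 := by
          rw [Complex.norm_real, Real.norm_eq_abs, sq_abs]
        rw [e1]
        obtain ⟨x, hx⟩ : ∃ x : ℝ, x = ‖((g v : ℝ) : ℂ)‖ := ⟨_, rfl⟩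
        obtain ⟨y, hy⟩ : ∃ y : ℝ, y = ‖Q v‖ := ⟨_, rfl⟩
        obtain ⟨z, hz⟩ : ∃ z : ℝ, z = ‖((g v : ℝ) : ℂ) - Q v‖ := ⟨_, rfl⟩
        have e2 : |x - y| ≤ z := by
          rw [hx, hy, hz]
          exact abs_norm_sub_norm_le _ _
        have e3 := hgQ v
        rw [← hz] at e3
        rw [← hx, ← hy]
        have hy0 : 0 ≤ y := hy ▸ norm_nonneg _
        have hz0 : 0 ≤ z := hz ▸ norm_nonneg _
        have e4 : |x ^ 2 - y ^ 2| ≤ η * y ^ 2 + (1 + 1 / η) * z ^ 2 := by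
          have e5 : x ^ 2 - y ^ 2 = (x - y) * (x - y) + 2 * y * (x - y) := by ring
          have e6 : |x ^ 2 - y ^ 2| ≤ |x - y| * |x - y| + 2 * y * |x - y| := by
            rw [e5]
            refine (abs_add_le _ _).trans ?_
            rw [abs_mul, abs_mul, abs_of_nonneg (by positivity : 0 ≤ 2 * y)]
          have e7 : |x - y| * |x - y| + 2 * y * |x - y| ≤ z * z + 2 * y * z := by
            have := abs_nonneg (x - y)
            gcongr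
          have e8 : η * y ^ 2 + (1 + 1 / η) * z ^ 2 - (z * z + 2 * y * z) = (η * y - z) ^ 2 / η := by
            field_simp
            ring
          have e9 : 0 ≤ (η * y - z) ^ 2 / η := by positivity
          linarith
        refine e4.trans ?_
        gcongr)
    have h6 : mn (fun v => η * ‖Q v‖ ^ 2 + (1 + 1 / η) * (2 * α ^ 2 * ‖((ft (v + a) : ℝ) : ℂ) - P (v + a)‖ ^ 2 +
        2 * β ^ 2 * ‖((ft (v + b) : ℝ) : ℂ) - P (v + b)‖ ^ 2)) V =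
        η * mn (fun v => ‖Q v‖ ^ 2) V + (1 + 1 / η) * (2 * α ^ 2 *
          mn (fun v => ‖((ft (v + a) : ℝ) : ℂ) - P (v + a)‖ ^ 2) V + 2 * β ^ 2 *
          mn (fun v => ‖((ft (v + b) : ℝ) : ℂ) - P (v + b)‖ ^ 2) V) := by
      rw [mn_add ((hQ2.const_mul η).ii 0 V)
        (((((hdL.shift a).const_mul (2 * α ^ 2)).add ((hdL.shift b).const_mul (2 * β ^ 2))).const_mul _).ii 0 V),
        mn_const_mul, mn_const_mul, mn_add (((hdL.shift a).const_mul (2 * α ^ 2)).ii 0 V)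
        (((hdL.shift b).const_mul (2 * β ^ 2)).ii 0 V), mn_const_mul, mn_const_mul]
    rw [h6] at h5
    have h7 : η * mn (fun v => ‖Q v‖ ^ 2) V ≤ ε / 4 := by
      have e1 : η * mn (fun v => ‖Q v‖ ^ 2) V ≤ η * (S + 1) := by
        refine mul_le_mul_of_nonneg_left ?_ hη0.le
        linarith
      refine e1.trans (le_of_eq ?_)
      rw [hη]
      field_simp
    have h8 : (1 + 1 / η) * (2 * α ^ 2 *
          mn (fun v => ‖((ft (v + a) : ℝ) : ℂ) - P (v + a)‖ ^ 2) V + 2 * β ^ 2 *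
          mn (fun v => ‖((ft (v + b) : ℝ) : ℂ) - P (v + b)‖ ^ 2) V) ≤ ε / 8 := by
      have e1 : 2 * α ^ 2 * mn (fun v => ‖((ft (v + a) : ℝ) : ℂ) - P (v + a)‖ ^ 2) V + 2 * β ^ 2 *
          mn (fun v => ‖((ft (v + b) : ℝ) : ℂ) - P (v + b)‖ ^ 2) V ≤ (B + 1) * ξ := by
        have e2 : 2 * α ^ 2 * mn (fun v => ‖((ft (v + a) : ℝ) : ℂ) - P (v + a)‖ ^ 2) V ≤
            2 * α ^ 2 * ω := mul_le_mul_of_nonneg_left hVa.le (by positivity)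
        have e3 : 2 * β ^ 2 * mn (fun v => ‖((ft (v + b) : ℝ) : ℂ) - P (v + b)‖ ^ 2) V ≤
            2 * β ^ 2 * ω := mul_le_mul_of_nonneg_left hVb.le (by positivity)
        have e4 : 2 * α ^ 2 * ω + 2 * β ^ 2 * ω = B * ω := by rw [hB]; ring
        have e5 : B * ω ≤ (B + 1) * ξ := by gcongr; linarith
        linarith
      calc _ ≤ (1 + 1 / η) * ((B + 1) * ξ) := mul_le_mul_of_nonneg_left e1 (by positivity)
        _ = ε / 8 := by rw [hξ]; field_simp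
    rw [Real.dist_eq] at hVq' ⊢
    have h9 := abs_sub_lt_iff.1 h4
    have h10 := abs_sub_lt_iff.1 hVq'
    have h11 := abs_le.1 h5
    rw [abs_lt]
    constructor <;> linarith [h9.1, h9.2, h10.1, h10.2, h11.1, h11.2]
  rw [hg, hS] at hfin
  exact hfin

end Pool.Agent.Q276.MW
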