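import Pool.Agent.Q276.MW.A2

/-! The logarithmic mean square of Moebius sums in proportional windows. -/

set_option autoImplicit false

open MeasureTheory Filter Topology Set

namespace Pool.Agent.Q276.MW

open Pool.Agent.TH223.AP
open Pool.Agent.H295R2 (JJ JW ww ee Mx)
open Pool.Agent.W120.WM (ZC msq msq_eq NT)

/-- the sum of the Moebius function over `|n - x| < H / 2` -/
noncomputable def Ms (x H : ℝ) : ℝ :=
  ∑ n ∈ (Finset.Icc 1 ⌈x + H⌉₊).filter (fun n : ℕ => |(n : ℝ) - x| < H / 2),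
    ((ArithmeticFunction.moebius n : ℤ) : ℝ)

/-- the logarithmic mean square over proportional windows -/
noncomputable def DD (δ X : ℝ) : ℝ := (∫ x in (1:ℝ)..X, (Ms x (δ * x) / x) ^ 2) / Real.log X

lemma Mx_eq_sum {y : ℝ} (hy : 0 ≤ y) {N : ℕ} (hN : y ≤ N) :
    Mx y = ∑ n ∈ (Finset.Icc 1 N).filter (fun n : ℕ => (n : ℝ) ≤ y),
      ((ArithmeticFunction.moebius n : ℤ) : ℝ) := by
  have h : (Finset.Icc 1 N).filter (fun n : ℕ => (n : ℝ) ≤ y) = Finset.Icc 1 ⌊y⌋₊ := by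
    ext n
    rw [Finset.mem_filter, Finset.mem_Icc, Finset.mem_Icc, Nat.le_floor_iff hy]
    constructor
    · rintro ⟨⟨h1, -⟩, h2⟩
      exact ⟨h1, h2⟩
    · rintro ⟨h1, h2⟩
      exact ⟨⟨h1, by exact_mod_cast h2.trans hN⟩, h2⟩
  rw [h]
  rfl

/-- outside the points where an endpoint is an integer -/
lemma Ms_eq {x δ : ℝ} (hx : 0 < x) (hδ : 0 < δ) (hδ2 : δ < 2) (hne : ∀ n : ℕ, (n : ℝ) ≠ (1 + δ / 2) * x) :
    Ms x (δ * x) = Mx ((1 + δ / 2) * x) - Mx ((1 - δ / 2) * x) := by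
  have h1 : (1 + δ / 2) * x ≤ (⌈x + δ * x⌉₊ : ℝ) := by
    refine le_trans ?_ (Nat.le_ceil _)
    nlinarith
  have h2 : (1 - δ / 2) * x ≤ (1 + δ / 2) * x := by nlinarith
  have h3 : 0 ≤ (1 - δ / 2) * x := by
    have : 0 < 1 - δ / 2 := by linarith
    positivity
  rw [Mx_eq_sum (h3.trans h2) h1, Mx_eq_sum h3 (h2.trans h1)]
  unfold Ms
  rw [eq_sub_iff_add_eq, ← Finset.sum_union]
  · refine Finset.sum_congr ?_ fun _ _ => rfl
    ext n
    simp only [Finset.mem_union, Finset.mem_filter, Finset.mem_Icc]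
    have h4 := hne n
    constructor
    · rintro (⟨h5, h6⟩ | ⟨h5, h6⟩)
      · rw [abs_lt] at h6
        exact ⟨h5, by linarith [h6.2]⟩
      · exact ⟨h5, h6.trans h2⟩
    · rintro ⟨h5, h6⟩
      rcases le_or_gt (n : ℝ) ((1 - δ / 2) * x) with h7 | h7
      · exact Or.inr ⟨h5, h7⟩
      · refine Or.inl ⟨h5, abs_lt.2 ⟨by linarith, ?_⟩⟩
        have h8 : (n : ℝ) < (1 + δ / 2) * x := lt_of_le_of_ne h6 h4
        linarith
  · rw [Finset.disjoint_left]
    intro n hn hn'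
    rw [Finset.mem_filter] at hn hn'
    have h5 := (abs_lt.1 hn.2).1
    have h6 := hn'.2
    linarith

/-- change of variables -/
lemma cov (F : ℝ → ℝ) {L : ℝ} (hL : 0 ≤ L) :
    ∫ x in (1:ℝ)..(Real.exp L), F x = ∫ v in (0:ℝ)..L, Real.exp v * F (Real.exp v) := by
  have h1 : (1:ℝ) ≤ Real.exp L := Real.one_le_exp hL
  rw [intervalIntegral.integral_of_le h1, intervalIntegral.integral_of_le hL]
  have h := integral_image_eq_integral_abs_deriv_smul (s := Ioc 0 L) (f := Real.exp) (f' := Real.exp)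
    measurableSet_Ioc (fun x _ => (Real.hasDerivAt_exp x).hasDerivWithinAt) (Real.exp_injective.injOn) F
  have himg : Real.exp '' Ioc 0 L = Ioc 1 (Real.exp L) := by
    ext y
    simp only [mem_image, mem_Ioc]
    constructor
    · rintro ⟨x, hx, rfl⟩
      refine ⟨?_, Real.exp_le_exp.2 hx.2⟩
      rw [← Real.exp_zero]
      exact Real.exp_lt_exp.2 hx.1
    · intro hy
      have hy0 : 0 < y := one_pos.trans hy.1
      refine ⟨Real.log y, ⟨Real.log_pos hy.1, (Real.log_le_iff_le_exp hy0).2 hy.2⟩, Real.exp_log hy0⟩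
  rw [himg] at h
  rw [h]
  refine integral_congr_ae (Eventually.of_forall fun s => ?_)
  simp only
  rw [abs_of_pos (Real.exp_pos s), smul_eq_mul]

/-- the difference of the two shifts -/
noncomputable def gg (δ v : ℝ) : ℝ :=
  Real.sqrt (1 + δ / 2) * ft (v + Real.log (1 + δ / 2)) -
    Real.sqrt (1 - δ / 2) * ft (v + Real.log (1 - δ / 2))

lemma ft_scale {θ : ℝ} (hθ : 0 < θ) (v : ℝ) :
    Real.sqrt θ * ft (v + Real.log θ) = Mx (θ * Real.exp v) * Real.exp (-(v / 2)) := by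
  have h2 : ft (v + Real.log θ) = Mx (Real.exp (v + Real.log θ)) * Real.exp (-((v + Real.log θ) / 2)) := rfl
  rw [h2, Real.exp_add, Real.exp_log hθ, mul_comm (Real.exp v) θ]
  have h3 : Real.sqrt θ = Real.exp (Real.log θ / 2) := by
    rw [Real.sqrt_eq_rpow, Real.rpow_def_of_pos hθ]
    congr 1
    ring
  have h4 : Real.exp (Real.log θ / 2) * (Mx (θ * Real.exp v) * Real.exp (-((v + Real.log θ) / 2))) =
      Mx (θ * Real.exp v) * (Real.exp (Real.log θ / 2) * Real.exp (-((v + Real.log θ) / 2))) := by ring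
  rw [h3, h4, ← Real.exp_add]
  congr 2
  ring

lemma gg_eq {δ : ℝ} (hδ : 0 < δ) (hδ2 : δ < 2) (v : ℝ) :
    gg δ v = (Mx ((1 + δ / 2) * Real.exp v) - Mx ((1 - δ / 2) * Real.exp v)) * Real.exp (-(v / 2)) := by
  unfold gg
  rw [ft_scale (by linarith), ft_scale (by linarith)]
  ring

lemma DD_eq {δ : ℝ} (hδ : 0 < δ) (hδ2 : δ < 2) {L : ℝ} (hL : 0 ≤ L) :
    DD δ (Real.exp L) = mn (fun v => gg δ v ^ 2) L := by
  unfold DD mn
  rw [cov _ hL, Real.log_exp]
  congr 1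
  rw [intervalIntegral.integral_of_le hL, intervalIntegral.integral_of_le hL]
  refine setIntegral_congr_ae measurableSet_Ioc ?_
  have hc : (Set.range fun n : ℕ => Real.log ((n : ℝ) / (1 + δ / 2))).Countable := countable_range _
  filter_upwards [hc.ae_notMem volume] with v hv _
  have hne : ∀ n : ℕ, (n : ℝ) ≠ (1 + δ / 2) * Real.exp v := by
    intro n hn
    refine hv ⟨n, ?_⟩
    simp only
    rw [hn, mul_div_cancel_left₀ _ (by linarith : (1 + δ / 2) ≠ 0), Real.log_exp]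
  rw [Ms_eq (Real.exp_pos v) hδ hδ2 hne, gg_eq hδ hδ2, div_pow, mul_pow]
  have e1 : Real.exp (-(v / 2)) ^ 2 = (Real.exp v)⁻¹ := by
    rw [← Real.exp_nat_mul, ← Real.exp_neg]
    congr 1
    push_cast
    ring
  rw [e1]
  have := (Real.exp_pos v).ne'
  field_simp

/-- the limit -/
noncomputable def DL (δ : ℝ) : ℝ :=
  ∑' ρ : NT, ‖(((1 + δ / 2 : ℝ) : ℂ) ^ (ρ : ℂ) - ((1 - δ / 2 : ℝ) : ℂ) ^ (ρ : ℂ)) /
    ((ρ : ℂ) * deriv riemannZeta ρ)‖ ^ 2

lemma sqrt_ee {θ : ℝ} (hθ : 0 < θ) (ρ : ℂ) :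
    ((Real.sqrt θ : ℝ) : ℂ) * ee ρ (Real.log θ) = (θ : ℂ) ^ ρ := by
  have h3 : Real.sqrt θ = Real.exp (Real.log θ / 2) := by
    rw [Real.sqrt_eq_rpow, Real.rpow_def_of_pos hθ]
    congr 1
    ring
  rw [h3, Complex.cpow_def_of_ne_zero (by exact_mod_cast hθ.ne'), ← Complex.ofReal_log hθ.le]
  unfold ee
  rw [Complex.ofReal_exp, ← Complex.exp_add]
  congr 1
  push_cast
  ring

lemma DL_eq {δ : ℝ} (hδ : 0 < δ) (hδ2 : δ < 2) :
    DL δ = SG (Real.sqrt (1 + δ / 2)) (Real.sqrt (1 - δ / 2)) (Real.log (1 + δ / 2))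
      (Real.log (1 - δ / 2)) := by
  unfold DL SG
  refine tsum_congr fun ρ => ?_
  unfold cf
  rw [sqrt_ee (by linarith), sqrt_ee (by linarith), norm_div, div_pow]
  ring

theorem DD_lim (hZ : ZC) {δ : ℝ} (hδ : 0 < δ) (hδ2 : δ < 2) : Tendsto (DD δ) atTop (𝓝 (DL δ)) := by
  have h1 := mean_shift hZ (Real.sqrt (1 + δ / 2)) (Real.sqrt (1 - δ / 2)) (Real.log (1 + δ / 2))
    (Real.log (1 - δ / 2))
  rw [← DL_eq hδ hδ2] at h1
  have h2 := h1.comp Real.tendsto_log_atTop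
  refine h2.congr' ?_
  filter_upwards [eventually_ge_atTop (1:ℝ)] with X hX
  have h3 := DD_eq hδ hδ2 (Real.log_nonneg hX)
  rw [Real.exp_log (by linarith)] at h3
  rw [h3]
  rfl

theorem ZC_of_DD {δ : ℝ} (hδ : 0 < δ) (hδ2 : δ < 2) {C : ℝ} (h : ∃ᶠ X : ℝ in atTop, DD δ X ≤ C) : ZC := by
  have h1 : ∃ᶠ V : ℝ in atTop, mn (fun v => gg δ v ^ 2) V ≤ C := by
    have h2 : ∃ᶠ X : ℝ in atTop, mn (fun v => gg δ v ^ 2) (Real.log X) ≤ C := by
      refine (h.and_eventually (eventually_ge_atTop (1:ℝ))).mono fun X hX => ?_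
      have h3 := DD_eq hδ hδ2 (Real.log_nonneg hX.2)
      rw [Real.exp_log (by linarith [hX.2])] at h3
      rw [← h3]
      exact hX.1
    exact Real.tendsto_log_atTop.frequently h2
  obtain ⟨A, B, hA, hAB⟩ := contraction ft_LC (a := Real.log (1 + δ / 2)) (b := Real.log (1 - δ / 2))
    (α := Real.sqrt (1 + δ / 2)) (β := Real.sqrt (1 - δ / 2)) (Real.log_pos (by linarith))
    (Real.log_nonpos (by linarith) (by linarith)) (Real.sqrt_pos.2 (by linarith)) (Real.sqrt_nonneg _)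
    (Real.sqrt_lt_sqrt (by linarith) (by linarith))
  refine ZC_of_freq (C := A * C + |B|) ?_
  refine (h1.and_eventually ((eventually_ge_atTop (Real.log (1 + δ / 2) - Real.log (1 - δ / 2))).and
    (eventually_ge_atTop (1:ℝ)))).mono fun V hV => ?_
  obtain ⟨h2, h3, h4⟩ := hV
  have h5 := hAB V h3
  have hV0 : 0 < V := by linarith
  unfold mn at h2 ⊢
  rw [div_le_iff₀ hV0] at h2 ⊢
  have h6 : (∫ v in (0:ℝ)..V, gg δ v ^ 2) = ∫ v in (0:ℝ)..V,
      (Real.sqrt (1 + δ / 2) * ft (v + Real.log (1 + δ / 2)) -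
    Real.sqrt (1 - δ / 2) * ft (v + Real.log (1 - δ / 2))) ^ 2 := rfl
  rw [h6] at h2
  have h7 := mul_le_mul_of_nonneg_left h2 hA.le
  have h8 : B ≤ |B| * V := by
    have := le_abs_self B
    nlinarith [abs_nonneg B]
  nlinarith

theorem DD_top (hZ : ¬ ZC) {δ : ℝ} (hδ : 0 < δ) (hδ2 : δ < 2) : Tendsto (DD δ) atTop atTop := by
  rw [tendsto_atTop]
  intro C
  by_contra h
  rw [Filter.not_eventually] at h
  exact hZ (ZC_of_DD hδ hδ2 (C := C) (h.mono fun X hX => (not_le.1 hX).le))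

end Pool.Agent.Q276.MW
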