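import Mathlib

/-! A Tauberian theorem for the kernel `1 / (a² + t²)` and nonnegative weights: preliminaries. -/

set_option autoImplicit false

open MeasureTheory Filter Topology Set

namespace Pool.Agent.Q276.MW.TB

variable {ι : Type*}

/-- nonnegative weights at nonnegative points -/
structure HY (d t : ι → ℝ) : Prop where
  d0 : ∀ i, 0 ≤ d i
  t0 : ∀ i, 0 ≤ t i
  sm : Summable fun i => d i / (1 / 4 + t i ^ 2)

/-- the Stieltjes type transform -/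
noncomputable def St (d t : ι → ℝ) (a : ℝ) : ℝ := ∑' i, d i / (a ^ 2 + t i ^ 2)

/-- the functional at scale `T` -/
noncomputable def LL (d t : ι → ℝ) (φ : ℝ → ℝ) (T : ℝ) : ℝ :=
  T * ∑' i, d i / (T ^ 2 + t i ^ 2) * φ (1 / (1 + (t i / T) ^ 2))

/-- the limit functional -/
noncomputable def Jn (φ : ℝ → ℝ) : ℝ := ∫ u in Ioi (0:ℝ), φ (1 / (1 + u ^ 2)) * (1 + u ^ 2)⁻¹

lemma y_mem (u : ℝ) : 1 / (1 + u ^ 2) ∈ Icc (0:ℝ) 1 :=
  ⟨by positivity, by
    rw [div_le_one (by positivity)]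
    nlinarith [sq_nonneg u]⟩

lemma comp_cont {φ : ℝ → ℝ} (hφ : ContinuousOn φ (Icc 0 1)) : Continuous fun u : ℝ => φ (1 / (1 + u ^ 2)) :=
  hφ.comp_continuous (by
    refine Continuous.div continuous_const (by fun_prop) fun u => ?_
    positivity) fun u => y_mem u

lemma bdd_of_cont {φ : ℝ → ℝ} (hφ : ContinuousOn φ (Icc 0 1)) : ∃ B : ℝ, 0 ≤ B ∧
    ∀ y ∈ Icc (0:ℝ) 1, |φ y| ≤ B := by
  obtain ⟨B, hB⟩ := isCompact_Icc.exists_bound_of_continuousOn hφ
  refine ⟨max B 0, le_max_right _ _, fun y hy => (hB y hy).trans (le_max_left _ _)⟩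

lemma Jn_int {φ : ℝ → ℝ} (hφ : ContinuousOn φ (Icc 0 1)) :
    IntegrableOn (fun u : ℝ => φ (1 / (1 + u ^ 2)) * (1 + u ^ 2)⁻¹) (Ioi 0) := by
  obtain ⟨B, hB0, hB⟩ := bdd_of_cont hφ
  refine (Integrable.bdd_mul (c := B) integrable_inv_one_add_sq
    (comp_cont hφ).aestronglyMeasurable (Eventually.of_forall fun u => ?_)).integrableOn
  exact hB _ (y_mem u)

lemma Jn_one : ∫ u in Ioi (0:ℝ), (1 + u ^ 2)⁻¹ = Real.pi / 2 := by
  rw [integral_Ioi_inv_one_add_sq, Real.arctan_zero, sub_zero]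

variable {d t : ι → ℝ}

lemma HY.sm_a (H : HY d t) {a : ℝ} (ha : 1 / 2 ≤ a) : Summable fun i => d i / (a ^ 2 + t i ^ 2) := by
  refine Summable.of_nonneg_of_le (fun i => ?_) (fun i => ?_) H.sm
  · have := H.d0 i
    positivity
  · have := H.d0 i
    refine div_le_div_of_nonneg_left this (by positivity) ?_
    nlinarith

lemma St_nonneg (H : HY d t) (a : ℝ) : 0 ≤ St d t a := tsum_nonneg fun i => by
  have := H.d0 i
  positivity

lemma HY.sm_phi (H : HY d t) {φ : ℝ → ℝ} {B : ℝ} (hB : ∀ y ∈ Icc (0:ℝ) 1, |φ y| ≤ B) {T : ℝ}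
    (hT : 1 / 2 ≤ T) :
    Summable fun i => d i / (T ^ 2 + t i ^ 2) * φ (1 / (1 + (t i / T) ^ 2)) := by
  refine Summable.of_norm_bounded ((H.sm_a hT).mul_right B) fun i => ?_
  have h1 := H.d0 i
  rw [Real.norm_eq_abs, abs_mul, abs_of_nonneg (by positivity)]
  have h2 := hB _ (y_mem (t i / T))
  gcongr

lemma LL_bound (H : HY d t) {φ : ℝ → ℝ} {B : ℝ} (hB : ∀ y ∈ Icc (0:ℝ) 1, |φ y| ≤ B) {T : ℝ}
    (hT : 1 / 2 ≤ T) : |LL d t φ T| ≤ B * (T * St d t T) := by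
  unfold LL St
  have hT0 : 0 ≤ T := by linarith
  rw [abs_mul, abs_of_nonneg hT0]
  have h1 : |∑' i, d i / (T ^ 2 + t i ^ 2) * φ (1 / (1 + (t i / T) ^ 2))| ≤
      ∑' i, B * (d i / (T ^ 2 + t i ^ 2)) := by
    rw [← Real.norm_eq_abs]
    refine tsum_of_norm_bounded ((H.sm_a hT).mul_left B).hasSum fun i => ?_
    have h1 := H.d0 i
    rw [Real.norm_eq_abs, abs_mul, abs_of_nonneg (by positivity), mul_comm]
    have h2 := hB _ (y_mem (t i / T))
    gcongr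
  rw [tsum_mul_left] at h1
  calc T * |∑' i, d i / (T ^ 2 + t i ^ 2) * φ (1 / (1 + (t i / T) ^ 2))|
      ≤ T * (B * ∑' i, d i / (T ^ 2 + t i ^ 2)) := by gcongr
    _ = _ := by ring

lemma LL_add (H : HY d t) {φ ψ : ℝ → ℝ} (hφ : ContinuousOn φ (Icc 0 1)) (hψ : ContinuousOn ψ (Icc 0 1))
    {T : ℝ} (hT : 1 / 2 ≤ T) (α β : ℝ) : LL d t (fun y => α * φ y + β * ψ y) T =
      α * LL d t φ T + β * LL d t ψ T := by
  obtain ⟨B, -, hB⟩ := bdd_of_cont hφ
  obtain ⟨C, -, hC⟩ := bdd_of_cont hψ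
  unfold LL
  have h1 := ((H.sm_phi hB hT).mul_left α).tsum_add ((H.sm_phi hC hT).mul_left β)
  rw [tsum_mul_left, tsum_mul_left] at h1
  have h2 : ∑' i, d i / (T ^ 2 + t i ^ 2) * (α * φ (1 / (1 + (t i / T) ^ 2)) +
      β * ψ (1 / (1 + (t i / T) ^ 2))) = ∑' i, (α * (d i / (T ^ 2 + t i ^ 2) *
        φ (1 / (1 + (t i / T) ^ 2))) + β * (d i / (T ^ 2 + t i ^ 2) * ψ (1 / (1 + (t i / T) ^ 2)))) :=
    tsum_congr fun i => by ring
  rw [h2, h1]
  ring

lemma Jn_add {φ ψ : ℝ → ℝ} (hφ : ContinuousOn φ (Icc 0 1)) (hψ : ContinuousOn ψ (Icc 0 1)) (α β : ℝ) :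
    Jn (fun y => α * φ y + β * ψ y) = α * Jn φ + β * Jn ψ := by
  unfold Jn
  rw [← integral_const_mul, ← integral_const_mul, ← integral_add ((Jn_int hφ).const_mul α)
    ((Jn_int hψ).const_mul β)]
  refine integral_congr_ae (Eventually.of_forall fun u => ?_)
  simp only
  ring

lemma Jn_close {φ ψ : ℝ → ℝ} (hφ : ContinuousOn φ (Icc 0 1)) (hψ : ContinuousOn ψ (Icc 0 1)) {ε : ℝ}
    (h : ∀ y ∈ Icc (0:ℝ) 1, |φ y - ψ y| ≤ ε) : |Jn φ - Jn ψ| ≤ ε * (Real.pi / 2) := by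
  unfold Jn
  rw [← integral_sub (Jn_int hφ) (Jn_int hψ), ← Jn_one, ← integral_const_mul, ← Real.norm_eq_abs]
  refine norm_integral_le_of_norm_le (integrable_inv_one_add_sq.integrableOn.const_mul ε)
    (Eventually.of_forall fun u => ?_)
  rw [← sub_mul, norm_mul, Real.norm_eq_abs, Real.norm_eq_abs, abs_of_nonneg (by positivity :
    (0:ℝ) ≤ (1 + u ^ 2)⁻¹)]
  have := h _ (y_mem u)
  gcongr

/-- convergence for a test function -/
def PP (d t : ι → ℝ) (c : ℝ) (φ : ℝ → ℝ) : Prop := Tendsto (LL d t φ) atTop (𝓝 (c * Jn φ))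

lemma PP_add (H : HY d t) {c : ℝ} {φ ψ : ℝ → ℝ} (hφ : ContinuousOn φ (Icc 0 1))
    (hψ : ContinuousOn ψ (Icc 0 1)) (α β : ℝ) (h1 : PP d t c φ) (h2 : PP d t c ψ) :
    PP d t c (fun y => α * φ y + β * ψ y) := by
  unfold PP at *
  rw [Jn_add hφ hψ]
  have h3 := (h1.const_mul α).add (h2.const_mul β)
  have h4 : α * (c * Jn φ) + β * (c * Jn ψ) = c * (α * Jn φ + β * Jn ψ) := by ring
  rw [h4] at h3
  refine h3.congr' ?_
  filter_upwards [eventually_ge_atTop (1 / 2 : ℝ)] with T hT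
  rw [LL_add H hφ hψ hT]

lemma PP_congr {c : ℝ} {φ ψ : ℝ → ℝ} (h : ∀ y ∈ Icc (0:ℝ) 1, φ y = ψ y) (h1 : PP d t c φ) : PP d t c ψ := by
  unfold PP at *
  have e1 : LL d t φ = LL d t ψ := by
    funext T
    unfold LL
    congr 1
    refine tsum_congr fun i => ?_
    rw [h _ (y_mem _)]
  have e2 : Jn φ = Jn ψ := by
    unfold Jn
    refine integral_congr_ae (Eventually.of_forall fun u => ?_)
    simp only
    rw [h _ (y_mem u)]
  rwa [e1, e2] at h1

/-- uniform limits -/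
lemma PP_close (H : HY d t) {m c : ℝ} (hm : Tendsto (fun a => a * St d t a) atTop (𝓝 m))
    {φ : ℝ → ℝ} (hφ : ContinuousOn φ (Icc 0 1))
    (h : ∀ ε : ℝ, 0 < ε → ∃ ψ : ℝ → ℝ, ContinuousOn ψ (Icc 0 1) ∧ PP d t c ψ ∧
      ∀ y ∈ Icc (0:ℝ) 1, |φ y - ψ y| ≤ ε) : PP d t c φ := by
  unfold PP
  rw [Metric.tendsto_nhds]
  intro ε hε
  obtain ⟨δ, hδ⟩ : ∃ δ : ℝ, δ = ε / (2 * (|m| + 1 + |c| * (Real.pi / 2) + 1)) := ⟨_, rfl⟩
  have hK : 0 < |m| + 1 + |c| * (Real.pi / 2) + 1 := by positivity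
  have hδ0 : 0 < δ := by rw [hδ]; positivity
  obtain ⟨ψ, hψ, hP, hle⟩ := h δ hδ0
  have h1 := Metric.tendsto_nhds.1 hP (ε / 2) (by positivity)
  have h2 := Metric.tendsto_nhds.1 hm 1 one_pos
  filter_upwards [h1, h2, eventually_ge_atTop (1 / 2 : ℝ)] with T hT1 hT2 hT
  rw [Real.dist_eq] at hT1 hT2 ⊢
  have h3 : |LL d t φ T - LL d t ψ T| ≤ δ * (T * St d t T) := by
    have e1 := LL_add H hφ hψ hT 1 (-1)
    have e2 : LL d t φ T - LL d t ψ T = LL d t (fun y => 1 * φ y + (-1) * ψ y) T := by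
      rw [e1]; ring
    rw [e2]
    refine LL_bound H (fun y hy => ?_) hT
    have := hle y hy
    have e3 : 1 * φ y + (-1) * ψ y = φ y - ψ y := by ring
    rw [e3]
    exact this
  have h4 : T * St d t T ≤ |m| + 1 := by
    have := (abs_lt.1 hT2).2
    linarith [le_abs_self m]
  have h5 := Jn_close hφ hψ hle
  have h6 : |c * Jn φ - c * Jn ψ| ≤ |c| * (δ * (Real.pi / 2)) := by
    rw [← mul_sub, abs_mul]
    gcongr
  have h7 : δ * (T * St d t T) ≤ δ * (|m| + 1) := by gcongr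
  have h8 : δ * (|m| + 1) + |c| * (δ * (Real.pi / 2)) < ε / 2 := by
    have e1 : δ * (|m| + 1) + |c| * (δ * (Real.pi / 2)) = δ * (|m| + 1 + |c| * (Real.pi / 2)) := by ring
    have e2 : δ * (|m| + 1 + |c| * (Real.pi / 2) + 1) = ε / 2 := by
      rw [hδ]
      field_simp
    nlinarith
  have h9 : LL d t φ T - c * Jn φ = (LL d t φ T - LL d t ψ T) + (LL d t ψ T - c * Jn ψ) +
      (c * Jn ψ - c * Jn φ) := by ring
  rw [h9]
  have h10 := abs_add_le ((LL d t φ T - LL d t ψ T) + (LL d t ψ T - c * Jn ψ)) (c * Jn ψ - c * Jn φ)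
  have h11 := abs_add_le (LL d t φ T - LL d t ψ T) (LL d t ψ T - c * Jn ψ)
  rw [abs_sub_comm] at h6
  linarith

/-- the kernel functions -/
noncomputable def hk (k : ℕ) (c y : ℝ) : ℝ := y ^ k / (1 + c * y)

lemma hk_cont (k : ℕ) {c : ℝ} (hc : 0 ≤ c) : ContinuousOn (hk k c) (Icc 0 1) := by
  unfold hk
  refine ContinuousOn.div (by fun_prop) (by fun_prop) fun y hy => ?_
  have := mul_nonneg hc hy.1
  linarith

lemma int_scale {b : ℝ} (hb : 0 < b) : ∫ u in Ioi (0:ℝ), (b ^ 2 + u ^ 2)⁻¹ = Real.pi / 2 / b := by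
  have h1 := integral_comp_mul_left_Ioi (fun u : ℝ => (1 + u ^ 2)⁻¹) 0 (inv_pos.2 hb)
  rw [mul_zero, Jn_one, inv_inv, smul_eq_mul] at h1
  have h2 : ∫ u in Ioi (0:ℝ), (b ^ 2 + u ^ 2)⁻¹ = (b ^ 2)⁻¹ * ∫ u in Ioi (0:ℝ), (1 + (b⁻¹ * u) ^ 2)⁻¹ := by
    rw [← integral_const_mul]
    refine integral_congr_ae (Eventually.of_forall fun u => ?_)
    simp only
    rw [← mul_inv]
    congr 1
    field_simp
  rw [h2, h1]
  field_simp

lemma PP_zero {m : ℝ} (hm : Tendsto (fun a => a * St d t a) atTop (𝓝 m)) {c : ℝ}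
    (hc : 0 ≤ c) : PP d t (2 * m / Real.pi) (hk 0 c) := by
  unfold PP
  obtain ⟨b, hb⟩ : ∃ b : ℝ, b = Real.sqrt (1 + c) := ⟨_, rfl⟩
  have hb0 : 0 < b := by rw [hb]; positivity
  have hb2 : b ^ 2 = 1 + c := by rw [hb, Real.sq_sqrt (by linarith)]
  have hJ : Jn (hk 0 c) = Real.pi / 2 / b := by
    rw [← int_scale hb0]
    unfold Jn hk
    refine integral_congr_ae (Eventually.of_forall fun u => ?_)
    simp only
    have h1 : (1:ℝ) + u ^ 2 ≠ 0 := by positivity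
    have h2 : b ^ 2 + u ^ 2 ≠ 0 := by positivity
    have h3 : 1 + c * (1 / (1 + u ^ 2)) = (b ^ 2 + u ^ 2) / (1 + u ^ 2) := by
      rw [hb2]
      field_simp
      ring
    rw [h3, pow_zero]
    field_simp
  have hL : ∀ T : ℝ, 0 < T → LL d t (hk 0 c) T = b⁻¹ * ((b * T) * St d t (b * T)) := by
    intro T hT
    unfold LL St hk
    have h1 : b⁻¹ * ((b * T) * ∑' i, d i / ((b * T) ^ 2 + t i ^ 2)) =
        T * ∑' i, d i / ((b * T) ^ 2 + t i ^ 2) := by
      field_simp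
    rw [h1]
    congr 1
    refine tsum_congr fun i => ?_
    have h2 : 1 + c * (1 / (1 + (t i / T) ^ 2)) = ((b * T) ^ 2 + t i ^ 2) / (T ^ 2 + t i ^ 2) := by
      rw [mul_pow, hb2]
      field_simp
      ring
    rw [h2, pow_zero]
    have h3 : (T ^ 2 + t i ^ 2) ≠ 0 := by positivity
    have h4 : ((b * T) ^ 2 + t i ^ 2) ≠ 0 := by positivity
    field_simp
  have h1 : Tendsto (fun T : ℝ => b * T) atTop atTop := Tendsto.const_mul_atTop hb0 tendsto_id
  have h2 := (hm.comp h1).const_mul b⁻¹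
  have h3 : 2 * m / Real.pi * Jn (hk 0 c) = b⁻¹ * m := by
    rw [hJ]
    have := Real.pi_ne_zero
    field_simp
  rw [h3]
  refine h2.congr' ?_
  filter_upwards [eventually_gt_atTop (0:ℝ)] with T hT
  rw [hL T hT]
  rfl

lemma PP_step (H : HY d t) {m : ℝ} (hm : Tendsto (fun a => a * St d t a) atTop (𝓝 m)) {K : ℝ} (k : ℕ)
    (ih : ∀ c : ℝ, 0 ≤ c → PP d t K (hk k c)) : ∀ c : ℝ, 0 ≤ c → PP d t K (hk (k + 1) c) := by
  have h1 : ∀ c : ℝ, 0 < c → PP d t K (hk (k + 1) c) := by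
    intro c hc
    refine PP_congr (fun y hy => ?_) (PP_add H (hk_cont k le_rfl) (hk_cont k hc.le) c⁻¹ (-c⁻¹) (ih 0 le_rfl)
      (ih c hc.le))
    unfold hk
    have h2 : 1 + c * y ≠ 0 := by
      have := mul_nonneg hc.le hy.1
      linarith
    have h3 : (1:ℝ) + 0 * y = 1 := by ring
    rw [h3]
    field_simp
    ring
  intro c hc
  rcases hc.eq_or_lt with rfl | hc
  · refine PP_close H hm (hk_cont _ le_rfl) fun ε hε => ⟨hk (k + 1) ε, hk_cont _ hε.le, h1 ε hε, fun y hy => ?_⟩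
    unfold hk
    have h2 : 0 < 1 + ε * y := by
      have := mul_nonneg hε.le hy.1
      linarith
    have h3 : y ^ (k + 1) / (1 + 0 * y) - y ^ (k + 1) / (1 + ε * y) = ε * (y ^ (k + 2) / (1 + ε * y)) := by
      have h4 : (1:ℝ) + 0 * y = 1 := by ring
      rw [h4]
      field_simp
      ring
    have hy0 := hy.1
    rw [h3, abs_of_nonneg (by positivity)]
    have h5 : y ^ (k + 2) / (1 + ε * y) ≤ 1 := by
      rw [div_le_one h2]
      have h6 : y ^ (k + 2) ≤ 1 := pow_le_one₀ hy.1 hy.2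
      have := mul_nonneg hε.le hy.1
      linarith
    nlinarith
  · exact h1 c hc

lemma PP_pow (H : HY d t) {m : ℝ} (hm : Tendsto (fun a => a * St d t a) atTop (𝓝 m)) (k : ℕ) :
    ∀ c : ℝ, 0 ≤ c → PP d t (2 * m / Real.pi) (hk k c) := by
  induction k with
  | zero => exact fun c hc => PP_zero hm hc
  | succ k ih => exact PP_step H hm k ih

/-- convergence for all continuous test functions -/
theorem PP_all (H : HY d t) {m : ℝ} (hm : Tendsto (fun a => a * St d t a) atTop (𝓝 m)) {φ : ℝ → ℝ}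
    (hφ : ContinuousOn φ (Icc 0 1)) : PP d t (2 * m / Real.pi) φ := by
  have hpoly : ∀ p : Polynomial ℝ, PP d t (2 * m / Real.pi) (fun y => p.eval y) := by
    intro p
    induction p using Polynomial.induction_on' with
    | add p q hp hq =>
      refine PP_congr (fun y _ => ?_) (PP_add H p.continuous.continuousOn q.continuous.continuousOn 1 1 hp hq)
      simp
    | monomial n a =>
      refine PP_congr (fun y _ => ?_) (PP_add H (hk_cont n le_rfl) (hk_cont n le_rfl) a 0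
        (PP_pow H hm n 0 le_rfl) (PP_pow H hm n 0 le_rfl))
      unfold hk
      simp
  refine PP_close H hm hφ fun ε hε => ?_
  obtain ⟨p, hp⟩ := exists_polynomial_near_of_continuousOn 0 1 φ hφ ε hε
  refine ⟨fun y => p.eval y, p.continuous.continuousOn, hpoly p, fun y hy => ?_⟩
  rw [abs_sub_comm]
  exact (hp y hy).le

end Pool.Agent.Q276.MW.TB
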