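import Pool.Agent.Q276.MW.B1

/-! A Tauberian theorem for the kernel `1 / (a² + t²)` and nonnegative weights: the counting function. -/

set_option autoImplicit false

open MeasureTheory Filter Topology Set

namespace Pool.Agent.Q276.MW.TB

variable {ι : Type*} {d t : ι → ℝ}

/-- the weighted counting function -/
noncomputable def NN (d t : ι → ℝ) (T : ℝ) : ℝ := ∑' i, (if t i ≤ T then d i else 0)

lemma NN_le_term (H : HY d t) {ψ : ℝ → ℝ} {R B : ℝ} (hψ0 : ∀ u, R ≤ u → ψ u = 0)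
    (hB : ∀ u, |ψ u| ≤ B) {T : ℝ} (hT : 0 < T) (i : ι) :
    |d i * ψ (t i / T)| ≤ B * (1 / 4 + (R * T) ^ 2) * (d i / (1 / 4 + t i ^ 2)) := by
  have h1 := H.d0 i
  have h2 := H.t0 i
  have hB0 : 0 ≤ B := (abs_nonneg _).trans (hB 0)
  rw [abs_mul, abs_of_nonneg h1]
  rcases le_or_gt R (t i / T) with h | h
  · rw [hψ0 _ h, abs_zero, mul_zero]
    positivity
  · rw [div_lt_iff₀ hT] at h
    have h3 : d i = (1 / 4 + t i ^ 2) * (d i / (1 / 4 + t i ^ 2)) := by
      field_simp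
    have h4 : t i ^ 2 ≤ (R * T) ^ 2 := pow_le_pow_left₀ h2 h.le 2
    calc d i * |ψ (t i / T)| ≤ d i * B := by gcongr; exact hB _
      _ = (B * (1 / 4 + t i ^ 2)) * (d i / (1 / 4 + t i ^ 2)) := by
          nth_rewrite 1 [h3]; ring
      _ ≤ _ := by gcongr

lemma sm_psi (H : HY d t) {ψ : ℝ → ℝ} {R B : ℝ} (hψ0 : ∀ u, R ≤ u → ψ u = 0)
    (hB : ∀ u, |ψ u| ≤ B) {T : ℝ} (hT : 0 < T) : Summable fun i => d i * ψ (t i / T) :=
  Summable.of_norm_bounded (H.sm.mul_left _) fun i => by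
    rw [Real.norm_eq_abs]
    exact NN_le_term H hψ0 hB hT i

lemma NN_sm (H : HY d t) (T : ℝ) : Summable fun i => if t i ≤ T then d i else 0 := by
  refine Summable.of_nonneg_of_le (fun i => ?_) (fun i => ?_) (H.sm.mul_left (1 / 4 + T ^ 2))
  · split_ifs
    · exact H.d0 i
    · exact le_rfl
  · have h1 := H.d0 i
    have h2 := H.t0 i
    split_ifs with h
    · have h3 : t i ^ 2 ≤ T ^ 2 := pow_le_pow_left₀ h2 h 2
      calc d i = (1 / 4 + t i ^ 2) * (d i / (1 / 4 + t i ^ 2)) := by field_simp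
        _ ≤ _ := by gcongr
    · positivity

lemma NN_nonneg (H : HY d t) (T : ℝ) : 0 ≤ NN d t T := tsum_nonneg fun i => by
  split_ifs
  · exact H.d0 i
  · exact le_rfl

lemma NN_mono (H : HY d t) {S T : ℝ} (h : S ≤ T) : NN d t S ≤ NN d t T := by
  refine (NN_sm H S).tsum_le_tsum (fun i => ?_) (NN_sm H T)
  have h1 := H.d0 i
  by_cases h2 : t i ≤ S
  · rw [if_pos h2, if_pos (h2.trans h)]
  · rw [if_neg h2]
    split_ifs
    · exact h1
    · exact le_rfl

/-- the transported test function -/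
noncomputable def tf (ψ : ℝ → ℝ) (R y : ℝ) : ℝ :=
  ψ (Real.sqrt (1 / max y (1 / (1 + R ^ 2)) - 1)) / max y (1 / (1 + R ^ 2))

lemma tf_cont {ψ : ℝ → ℝ} (hψ : Continuous ψ) (R : ℝ) : Continuous (tf ψ R) := by
  have h0 : ∀ y : ℝ, max y (1 / (1 + R ^ 2)) ≠ 0 := fun y => by
    have : 0 < 1 / (1 + R ^ 2) := by positivity
    exact (lt_max_of_lt_right this).ne'
  unfold tf
  refine Continuous.div (hψ.comp (Real.continuous_sqrt.comp ?_)) (by fun_prop) h0
  exact (Continuous.div continuous_const (by fun_prop) h0).sub continuous_const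

lemma tf_eq {ψ : ℝ → ℝ} {R : ℝ} (hR : 0 ≤ R) (hψ0 : ∀ u, R ≤ u → ψ u = 0) {u : ℝ} (hu : 0 ≤ u) :
    tf ψ R (1 / (1 + u ^ 2)) = ψ u * (1 + u ^ 2) := by
  unfold tf
  rcases le_total u R with h | h
  · have h1 : 1 / (1 + R ^ 2) ≤ 1 / (1 + u ^ 2) := by
      apply one_div_le_one_div_of_le (by positivity)
      nlinarith
    rw [max_eq_left h1]
    have h2 : 1 / (1 / (1 + u ^ 2)) - 1 = u ^ 2 := by
      field_simp
      ring
    rw [h2, Real.sqrt_sq hu]
    field_simp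
  · have h1 : 1 / (1 + u ^ 2) ≤ 1 / (1 + R ^ 2) := by
      apply one_div_le_one_div_of_le (by positivity)
      nlinarith
    rw [max_eq_right h1]
    have h2 : 1 / (1 / (1 + R ^ 2)) - 1 = R ^ 2 := by
      field_simp
      ring
    rw [h2, Real.sqrt_sq hR, hψ0 R le_rfl, hψ0 u h]
    simp

/-- convergence for compactly supported test functions -/
theorem ET_lim (H : HY d t) {m : ℝ} (hm : Tendsto (fun a => a * St d t a) atTop (𝓝 m)) {ψ : ℝ → ℝ}
    (hψ : Continuous ψ) {R : ℝ} (hR : 0 ≤ R) (hψ0 : ∀ u, R ≤ u → ψ u = 0) :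
    Tendsto (fun T : ℝ => (∑' i, d i * ψ (t i / T)) / T) atTop
      (𝓝 (2 * m / Real.pi * ∫ u in Ioi (0:ℝ), ψ u)) := by
  have h1 := PP_all H hm (tf_cont hψ R).continuousOn
  unfold PP at h1
  have h2 : Jn (tf ψ R) = ∫ u in Ioi (0:ℝ), ψ u := by
    unfold Jn
    refine setIntegral_congr_fun measurableSet_Ioi fun u hu => ?_
    have hu' : 0 < u := hu
    rw [tf_eq hR hψ0 hu'.le]
    field_simp
  rw [h2] at h1
  refine h1.congr' ?_
  filter_upwards [eventually_gt_atTop (0:ℝ)] with T hT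
  unfold LL
  have h3 : ∑' i, d i / (T ^ 2 + t i ^ 2) * tf ψ R (1 / (1 + (t i / T) ^ 2)) =
      ∑' i, (T ^ 2)⁻¹ * (d i * ψ (t i / T)) := by
    refine tsum_congr fun i => ?_
    have h4 := H.t0 i
    rw [tf_eq hR hψ0 (by positivity : 0 ≤ t i / T)]
    have h5 : (T ^ 2 + t i ^ 2) ≠ 0 := by positivity
    have h6 : 1 + (t i / T) ^ 2 = (T ^ 2 + t i ^ 2) / T ^ 2 := by
      field_simp
    rw [h6]
    field_simp
  rw [h3, tsum_mul_left]
  field_simp

/-- the ramp -/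
noncomputable def rp (η u : ℝ) : ℝ := max 0 (min 1 ((η - u) / (η - 1)))

lemma rp_cont (η : ℝ) : Continuous (rp η) := by
  unfold rp
  fun_prop

lemma rp_nonneg (η u : ℝ) : 0 ≤ rp η u := le_max_left _ _

lemma rp_le_one (η u : ℝ) : rp η u ≤ 1 := max_le zero_le_one (min_le_left _ _)

lemma rp_one {η u : ℝ} (hη : 1 < η) (hu : u ≤ 1) : rp η u = 1 := by
  unfold rp
  have h1 : 1 ≤ (η - u) / (η - 1) := by
    rw [le_div_iff₀ (by linarith)]
    linarith
  rw [min_eq_left h1, max_eq_right zero_le_one]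

lemma rp_zero {η u : ℝ} (hη : 1 < η) (hu : η ≤ u) : rp η u = 0 := by
  unfold rp
  have h1 : (η - u) / (η - 1) ≤ 0 := div_nonpos_of_nonpos_of_nonneg (by linarith) (by linarith)
  rw [max_eq_left ((min_le_right _ _).trans h1)]

lemma rp_int {η : ℝ} (hη : 1 < η) : 1 ≤ ∫ u in Ioi (0:ℝ), rp η u ∧ ∫ u in Ioi (0:ℝ), rp η u ≤ η := by
  have h1 : ∫ u in Ioi (0:ℝ), rp η u = ∫ u in (0:ℝ)..η, rp η u := by
    rw [intervalIntegral.integral_of_le (by linarith)]
    refine setIntegral_eq_of_subset_of_forall_sdiff_eq_zero measurableSet_Ioi Ioc_subset_Ioi_self ?_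
    rintro u ⟨hu1, hu2⟩
    rw [mem_Ioc, not_and, not_le] at hu2
    exact rp_zero hη (hu2 hu1).le
  rw [h1]
  constructor
  · have h2 : ∫ u in (0:ℝ)..1, rp η u ≤ ∫ u in (0:ℝ)..η, rp η u :=
      intervalIntegral.integral_mono_interval le_rfl zero_le_one hη.le
        (Eventually.of_forall fun u => rp_nonneg η u) ((rp_cont η).intervalIntegrable _ _)
    refine le_trans (le_of_eq ?_) h2
    have h3 : ∫ u in (0:ℝ)..1, rp η u = ∫ u in (0:ℝ)..1, (1:ℝ) := by
      refine intervalIntegral.integral_congr fun u hu => ?_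
      rw [uIcc_of_le zero_le_one] at hu
      exact rp_one hη hu.2
    rw [h3]
    simp
  · have h2 : ∫ u in (0:ℝ)..η, rp η u ≤ ∫ u in (0:ℝ)..η, (1:ℝ) :=
      intervalIntegral.integral_mono_on (by linarith) ((rp_cont η).intervalIntegrable _ _)
        (continuous_const.intervalIntegrable _ _) fun u _ => rp_le_one η u
    refine h2.trans (le_of_eq ?_)
    simp

lemma NN_le_rp (H : HY d t) {η T : ℝ} (hη : 1 < η) (hT : 0 < T) :
    NN d t T ≤ ∑' i, d i * rp η (t i / T) := by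
  refine (NN_sm H T).tsum_le_tsum (fun i => ?_) (sm_psi H (R := η) (B := 1) (fun u hu => rp_zero hη hu)
    (fun u => by rw [abs_of_nonneg (rp_nonneg η u)]; exact rp_le_one η u) hT)
  have h1 := H.d0 i
  split_ifs with h
  · rw [rp_one hη ((div_le_one hT).2 h), mul_one]
  · exact mul_nonneg h1 (rp_nonneg _ _)

lemma rp_le_NN (H : HY d t) {η T : ℝ} (hη : 1 < η) (hT : 0 < T) :
    ∑' i, d i * rp η (t i / T) ≤ NN d t (η * T) := by
  refine (sm_psi H (R := η) (B := 1) (fun u hu => rp_zero hη hu)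
    (fun u => by rw [abs_of_nonneg (rp_nonneg η u)]; exact rp_le_one η u) hT).tsum_le_tsum
    (fun i => ?_) (NN_sm H (η * T))
  have h1 := H.d0 i
  split_ifs with h
  · have := rp_le_one η (t i / T)
    nlinarith
  · rw [rp_zero hη ((le_div_iff₀ hT).2 (not_le.1 h).le), mul_zero]

/-- the Tauberian theorem -/
theorem NN_lim (H : HY d t) {m : ℝ} (hm : Tendsto (fun a => a * St d t a) atTop (𝓝 m)) :
    Tendsto (fun T : ℝ => NN d t T / T) atTop (𝓝 (2 * m / Real.pi)) := by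
  have hm0 : 0 ≤ m := ge_of_tendsto hm (by
    filter_upwards [eventually_ge_atTop (0:ℝ)] with a ha
    exact mul_nonneg ha (St_nonneg H a))
  obtain ⟨c, hc⟩ : ∃ c : ℝ, c = 2 * m / Real.pi := ⟨_, rfl⟩
  have hc0 : 0 ≤ c := by rw [hc]; positivity
  rw [← hc]
  rw [Metric.tendsto_nhds]
  intro ε hε
  obtain ⟨η, hη⟩ : ∃ η : ℝ, η = 1 + ε / (2 * (c + 1) + ε) := ⟨_, rfl⟩
  have hη1 : 1 < η := by
    rw [hη]
    have : 0 < ε / (2 * (c + 1) + ε) := by positivity
    linarith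
  have hη0 : 0 < η := by linarith
  have hηe : (η - 1) * (c + 1) < ε / 2 := by
    rw [hη]
    have e1 : (1 + ε / (2 * (c + 1) + ε) - 1) * (c + 1) = ε * (c + 1) / (2 * (c + 1) + ε) := by
      ring
    rw [e1, div_lt_iff₀ (by positivity)]
    nlinarith
  obtain ⟨h1, h2⟩ := rp_int hη1
  obtain ⟨I, hI⟩ : ∃ I : ℝ, I = ∫ u in Ioi (0:ℝ), rp η u := ⟨_, rfl⟩
  rw [← hI] at h1 h2
  have h3 := ET_lim H hm (rp_cont η) hη0.le (fun u hu => rp_zero hη1 hu)
  rw [← hI, ← hc] at h3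
  have h4 : Tendsto (fun T : ℝ => (η⁻¹ * T)) atTop atTop :=
    Tendsto.const_mul_atTop (inv_pos.2 hη0) tendsto_id
  have h5 := h3.comp h4
  have h6 := Metric.tendsto_nhds.1 h3 (ε / 2) (by positivity)
  have h7 := Metric.tendsto_nhds.1 h5 (ε / 2) (by positivity)
  filter_upwards [h6, h7, eventually_gt_atTop (0:ℝ)] with T hT1 hT2 hT
  simp only [Function.comp] at hT2
  rw [Real.dist_eq, abs_lt] at hT1 hT2
  rw [Real.dist_eq, abs_lt]
  have hTη : 0 < η⁻¹ * T := by positivity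
  have e1 : NN d t T / T ≤ (∑' i, d i * rp η (t i / T)) / T := by
    have := NN_le_rp H hη1 hT
    gcongr
  have e2 : (∑' i, d i * rp η (t i / (η⁻¹ * T))) / (η⁻¹ * T) ≤ η * (NN d t T / T) := by
    have h8 := rp_le_NN H hη1 hTη
    have h9 : η * (η⁻¹ * T) = T := by field_simp
    rw [h9] at h8
    have h10 : η * (NN d t T / T) = NN d t T / (η⁻¹ * T) := by
      field_simp
    rw [h10]
    gcongr
  have hcI : c * I ≤ c + (η - 1) * (c + 1) := by nlinarith
  constructor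
  · have e3 : c - ε / 2 < η * (NN d t T / T) := by nlinarith [hT2.1]
    have e4 : 0 ≤ NN d t T / T := div_nonneg (NN_nonneg H T) hT.le
    by_contra hcon
    push Not at hcon
    -- N/T ≤ c - ε
    have e5 : NN d t T / T ≤ c - ε := by linarith
    have e6 : η * (NN d t T / T) ≤ η * (c - ε) := by gcongr
    nlinarith
  · linarith [hT1.2]

end Pool.Agent.Q276.MW.TB
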