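import Pool.Agent.Q276.MW.B2
import Pool.Agent.TH223.AP.A1

/-! The mean square increments `∑ d (2 - 2 cos (t h)) / (1/4 + t²)`, and the kernel `1 / (a² + t²)`. -/

set_option autoImplicit false

open MeasureTheory Filter Topology Set

namespace Pool.Agent.Q276.MW.TB

variable {ι : Type*} {d t : ι → ℝ}

/-- the increments -/
noncomputable def GG (d t : ι → ℝ) (h : ℝ) : ℝ :=
  ∑' i, d i / (1 / 4 + t i ^ 2) * (2 - 2 * Real.cos (t i * h))

/-- the total mass -/
noncomputable def WW (d t : ι → ℝ) : ℝ := ∑' i, d i / (1 / 4 + t i ^ 2)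

lemma WW_nonneg (H : HY d t) : 0 ≤ WW d t := tsum_nonneg fun i => by
  have := H.d0 i
  positivity

lemma w_nonneg (H : HY d t) (i : ι) : 0 ≤ d i / (1 / 4 + t i ^ 2) := by
  have := H.d0 i
  positivity

lemma GG_term_le (H : HY d t) (h : ℝ) (i : ι) :
    d i / (1 / 4 + t i ^ 2) * (2 - 2 * Real.cos (t i * h)) ≤ 4 * (d i / (1 / 4 + t i ^ 2)) := by
  have h1 := w_nonneg H i
  have h2 := Real.neg_one_le_cos (t i * h)
  nlinarith

lemma GG_term_nonneg (H : HY d t) (h : ℝ) (i : ι) :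
    0 ≤ d i / (1 / 4 + t i ^ 2) * (2 - 2 * Real.cos (t i * h)) := by
  have h1 := w_nonneg H i
  have h2 := Real.cos_le_one (t i * h)
  exact mul_nonneg h1 (by linarith)

lemma GG_sm (H : HY d t) (h : ℝ) :
    Summable fun i => d i / (1 / 4 + t i ^ 2) * (2 - 2 * Real.cos (t i * h)) :=
  Summable.of_nonneg_of_le (GG_term_nonneg H h) (GG_term_le H h) (H.sm.mul_left 4)

lemma GG_nonneg (H : HY d t) (h : ℝ) : 0 ≤ GG d t h := tsum_nonneg (GG_term_nonneg H h)

lemma GG_le (H : HY d t) (h : ℝ) : GG d t h ≤ 4 * WW d t := by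
  unfold GG WW
  rw [← tsum_mul_left]
  exact (GG_sm H h).tsum_le_tsum (GG_term_le H h) (H.sm.mul_left 4)

lemma GG_cont (H : HY d t) : Continuous (GG d t) := by
  unfold GG
  refine continuous_tsum (u := fun i => 4 * (d i / (1 / 4 + t i ^ 2))) (fun i => by fun_prop)
    (H.sm.mul_left 4) fun i h => ?_
  rw [Real.norm_eq_abs, abs_of_nonneg (GG_term_nonneg H h i)]
  exact GG_term_le H h i

/-- the Laplace transform of a cosine -/
lemma lap_cos {a : ℝ} (ha : 0 < a) (x : ℝ) :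
    IntegrableOn (fun h : ℝ => Real.exp (-(a * h)) * Real.cos (x * h)) (Ioi 0) ∧
    ∫ h in Ioi (0:ℝ), Real.exp (-(a * h)) * Real.cos (x * h) = a / (a ^ 2 + x ^ 2) := by
  have hre : ((-a : ℝ) + x * Complex.I : ℂ).re < 0 := by simp [ha]
  have h1 := integrableOn_exp_mul_complex_Ioi hre 0
  have h2 := integral_exp_mul_complex_Ioi hre 0
  have hpt : ∀ h : ℝ, (Complex.exp (((-a : ℝ) + x * Complex.I : ℂ) * h)).re =
      Real.exp (-(a * h)) * Real.cos (x * h) := by
    intro h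
    rw [Complex.exp_re]
    simp
  have h3 := h1.re
  simp only [RCLike.re_eq_complex_re] at h3
  simp only [hpt] at h3
  refine ⟨h3, ?_⟩
  have h4 := integral_re (𝕜 := ℂ) h1
  simp only [RCLike.re_eq_complex_re] at h4
  simp only [hpt] at h4
  rw [h4, h2]
  have h5 : a ^ 2 + x ^ 2 ≠ 0 := by positivity
  simp only [Complex.ofReal_zero, mul_zero, Complex.exp_zero]
  rw [Complex.div_re]
  simp [Complex.normSq_apply]
  field_simp

lemma lap_exp {a : ℝ} (ha : 0 < a) :
    IntegrableOn (fun h : ℝ => Real.exp (-(a * h))) (Ioi 0) ∧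
    ∫ h in Ioi (0:ℝ), Real.exp (-(a * h)) = 1 / a := by
  obtain ⟨h1, h2⟩ := lap_cos ha 0
  simp only [zero_mul, Real.cos_zero, mul_one] at h1 h2
  refine ⟨h1, ?_⟩
  rw [h2]
  field_simp
  ring

lemma lap_pow {a : ℝ} (ha : 0 < a) (n : ℕ) :
    IntegrableOn (fun h : ℝ => Real.exp (-(a * h)) * h ^ n) (Ioi 0) ∧
    ∫ h in Ioi (0:ℝ), Real.exp (-(a * h)) * h ^ n = (n.factorial : ℝ) / a ^ (n + 1) := by
  have h1 := Real.integral_rpow_mul_exp_neg_mul_Ioi (a := (n : ℝ) + 1) (by positivity) ha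
  rw [Real.Gamma_nat_eq_factorial] at h1
  have h2 : ∀ h ∈ Ioi (0:ℝ), h ^ ((n : ℝ) + 1 - 1) * Real.exp (-(a * h)) = Real.exp (-(a * h)) * h ^ n := by
    intro h _
    rw [add_sub_cancel_right, Real.rpow_natCast, mul_comm]
  have h3 : (1 / a) ^ ((n : ℝ) + 1) = 1 / a ^ (n + 1) := by
    have : ((n : ℝ) + 1) = ((n + 1 : ℕ) : ℝ) := by push_cast; ring
    rw [this, Real.rpow_natCast, one_div, one_div, inv_pow]
  constructor
  · have h4 := integrableOn_rpow_mul_exp_neg_mul_rpow (s := (n : ℝ)) (p := 1) (by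
      have : (0:ℝ) ≤ n := Nat.cast_nonneg n
      linarith) one_pos ha
    refine h4.congr_fun (fun h hh => ?_) measurableSet_Ioi
    simp only
    rw [Real.rpow_natCast, Real.rpow_one, mul_comm, neg_mul]
  · rw [← setIntegral_congr_fun measurableSet_Ioi h2, h1, h3]
    ring

variable [Countable ι]

/-- the Laplace transform of the increments -/
lemma lap_GG (H : HY d t) {a : ℝ} (ha : 0 < a) :
    ∫ h in Ioi (0:ℝ), Real.exp (-(a * h)) * GG d t h =
      ∑' i, d i / (1 / 4 + t i ^ 2) * (2 * t i ^ 2 / (a * (a ^ 2 + t i ^ 2))) := by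
  have e1 : ∀ h : ℝ, Real.exp (-(a * h)) * GG d t h =
      ∑' i, d i / (1 / 4 + t i ^ 2) * (2 * Real.exp (-(a * h)) -
        2 * (Real.exp (-(a * h)) * Real.cos (t i * h))) := by
    intro h
    unfold GG
    rw [← tsum_mul_left]
    refine tsum_congr fun i => ?_
    ring
  simp only [e1]
  have hI : ∀ i, IntegrableOn (fun h : ℝ => d i / (1 / 4 + t i ^ 2) * (2 * Real.exp (-(a * h)) -
        2 * (Real.exp (-(a * h)) * Real.cos (t i * h)))) (Ioi 0) := fun i =>
    (((lap_exp ha).1.const_mul 2).sub ((lap_cos ha (t i)).1.const_mul 2)).const_mul _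
  have hV : ∀ i, ∫ h in Ioi (0:ℝ), d i / (1 / 4 + t i ^ 2) * (2 * Real.exp (-(a * h)) -
        2 * (Real.exp (-(a * h)) * Real.cos (t i * h))) =
        d i / (1 / 4 + t i ^ 2) * (2 * t i ^ 2 / (a * (a ^ 2 + t i ^ 2))) := by
    intro i
    rw [integral_const_mul, integral_sub ((lap_exp ha).1.const_mul 2) ((lap_cos ha (t i)).1.const_mul 2),
      integral_const_mul, integral_const_mul, (lap_exp ha).2, (lap_cos ha (t i)).2]
    congr 1
    have : a ^ 2 + t i ^ 2 ≠ 0 := by positivity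
    field_simp
    ring
  have hN : ∀ i, ∫ h in Ioi (0:ℝ), ‖d i / (1 / 4 + t i ^ 2) * (2 * Real.exp (-(a * h)) -
        2 * (Real.exp (-(a * h)) * Real.cos (t i * h)))‖ =
        d i / (1 / 4 + t i ^ 2) * (2 * t i ^ 2 / (a * (a ^ 2 + t i ^ 2))) := by
    intro i
    rw [← hV i]
    refine integral_congr_ae (Eventually.of_forall fun h => ?_)
    simp only
    rw [Real.norm_eq_abs, abs_of_nonneg]
    refine mul_nonneg (w_nonneg H i) ?_
    have h1 := Real.cos_le_one (t i * h)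
    have h2 := Real.exp_pos (-(a * h))
    nlinarith
  rw [← integral_tsum_of_summable_integral_norm hI]
  · exact tsum_congr hV
  · simp only [hN]
    refine Summable.of_nonneg_of_le (fun i => ?_) (fun i => ?_) (H.sm.mul_right (2 / a))
    · have := w_nonneg H i
      positivity
    · have h1 := w_nonneg H i
      refine mul_le_mul_of_nonneg_left ?_ h1
      rw [div_le_div_iff₀ (by positivity) ha]
      nlinarith [sq_nonneg a, mul_nonneg ha.le (sq_nonneg a)]

lemma lap_St (H : HY d t) {a : ℝ} (ha : 1 / 2 ≤ a) :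
    a ^ 2 * ∫ h in Ioi (0:ℝ), Real.exp (-(a * h)) * GG d t h =
      2 * (a * St d t a) - a / 2 * ∑' i, d i / (1 / 4 + t i ^ 2) / (a ^ 2 + t i ^ 2) := by
  have ha0 : 0 < a := by linarith
  rw [lap_GG H ha0]
  unfold St
  have hs : Summable fun i => d i / (1 / 4 + t i ^ 2) / (a ^ 2 + t i ^ 2) := by
    refine Summable.of_nonneg_of_le (fun i => ?_) (fun i => ?_) (H.sm.mul_right 4)
    · have := w_nonneg H i
      positivity
    · have h0 := w_nonneg H i
      rw [div_le_iff₀ (by positivity)]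
      have h1 : 1 ≤ 4 * (a ^ 2 + t i ^ 2) := by nlinarith [sq_nonneg (t i)]
      have h2 := mul_le_mul_of_nonneg_left h1 h0
      linarith
  have e1 : ∀ i, a ^ 2 * (d i / (1 / 4 + t i ^ 2) * (2 * t i ^ 2 / (a * (a ^ 2 + t i ^ 2)))) =
      2 * a * (d i / (a ^ 2 + t i ^ 2)) - a / 2 * (d i / (1 / 4 + t i ^ 2) / (a ^ 2 + t i ^ 2)) := by
    intro i
    have h1 : a ^ 2 + t i ^ 2 ≠ 0 := by positivity
    have h2 : 1 / 4 + t i ^ 2 ≠ 0 := by positivity
    have h3 : (1:ℝ) + 4 * t i ^ 2 ≠ 0 := by positivity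
    field_simp
    ring
  rw [← tsum_mul_left, tsum_congr e1, ((H.sm_a ha).mul_left (2 * a)).tsum_sub (hs.mul_left (a / 2)),
    tsum_mul_left, tsum_mul_left]
  ring

omit [Countable ι] in
lemma rest_le (H : HY d t) {a : ℝ} (ha : 1 / 2 ≤ a) :
    0 ≤ a / 2 * ∑' i, d i / (1 / 4 + t i ^ 2) / (a ^ 2 + t i ^ 2) ∧
    a / 2 * ∑' i, d i / (1 / 4 + t i ^ 2) / (a ^ 2 + t i ^ 2) ≤ WW d t / 2 * a⁻¹ := by
  have ha0 : 0 < a := by linarith
  constructor
  · refine mul_nonneg (by positivity) (tsum_nonneg fun i => ?_)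
    have := w_nonneg H i
    positivity
  · have h1 : ∑' i, d i / (1 / 4 + t i ^ 2) / (a ^ 2 + t i ^ 2) ≤ (a ^ 2)⁻¹ * WW d t := by
      unfold WW
      rw [← tsum_mul_left]
      have h2 : ∀ i, d i / (1 / 4 + t i ^ 2) / (a ^ 2 + t i ^ 2) ≤
          (a ^ 2)⁻¹ * (d i / (1 / 4 + t i ^ 2)) := by
        intro i
        have := w_nonneg H i
        rw [div_eq_mul_inv _ (a ^ 2 + t i ^ 2), mul_comm]
        refine mul_le_mul_of_nonneg_right ?_ this
        refine inv_anti₀ (by positivity) ?_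
        nlinarith [sq_nonneg (t i)]
      refine Summable.tsum_le_tsum h2 ?_ (H.sm.mul_left _)
      refine Summable.of_nonneg_of_le (fun i => ?_) h2 (H.sm.mul_left _)
      have := w_nonneg H i
      positivity
    calc a / 2 * ∑' i, d i / (1 / 4 + t i ^ 2) / (a ^ 2 + t i ^ 2)
        ≤ a / 2 * ((a ^ 2)⁻¹ * WW d t) := by gcongr
      _ = _ := by field_simp

/-- from the increments to the kernel -/
theorem St_of_GG (H : HY d t) {κ : ℝ} (hκ : Tendsto (fun h => GG d t h / h) (𝓝[>] 0) (𝓝 κ)) :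
    Tendsto (fun a => a * St d t a) atTop (𝓝 (κ / 2)) := by
  obtain ⟨W, hW⟩ : ∃ W : ℝ, W = WW d t := ⟨_, rfl⟩
  have hW0 : 0 ≤ W := hW ▸ WW_nonneg H
  have h1 : Tendsto (fun a : ℝ => a ^ 2 * ∫ h in Ioi (0:ℝ), Real.exp (-(a * h)) * GG d t h) atTop (𝓝 κ) := by
    rw [Metric.tendsto_nhds]
    intro ε hε
    have h2 := Metric.tendsto_nhds.1 hκ (ε / 4) (by positivity)
    rw [eventually_nhdsWithin_iff, Metric.eventually_nhds_iff] at h2
    obtain ⟨r, hr, h3⟩ := h2
    obtain ⟨C, hC⟩ : ∃ C : ℝ, C = 4 * W / r ^ 2 + |κ| / r := ⟨_, rfl⟩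
    have hC0 : 0 ≤ C := by rw [hC]; positivity
    have hpt : ∀ h : ℝ, 0 < h → |GG d t h - κ * h| ≤ ε / 4 * h + C * h ^ 2 := by
      intro h hh
      rcases lt_or_ge h r with h4 | h4
      · have h5 := h3 (y := h) (by rw [Real.dist_eq, sub_zero, abs_of_pos hh]; exact h4) hh
        rw [Real.dist_eq] at h5
        have h6 : GG d t h - κ * h = (GG d t h / h - κ) * h := by field_simp
        rw [h6, abs_mul, abs_of_pos hh]
        have h7 : 0 ≤ C * h ^ 2 := by positivity
        nlinarith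
      · have h5 : |GG d t h| ≤ 4 * W := by
          rw [abs_of_nonneg (GG_nonneg H h), hW]
          exact GG_le H h
        have h6 : |GG d t h - κ * h| ≤ 4 * W + |κ| * h := by
          refine (abs_sub _ _).trans ?_
          rw [abs_mul, abs_of_pos hh]
          linarith
        have h7 : 4 * W ≤ 4 * W / r ^ 2 * h ^ 2 := by
          rw [div_mul_eq_mul_div, le_div_iff₀ (by positivity)]
          gcongr
        have h8 : |κ| * h ≤ |κ| / r * h ^ 2 := by
          rw [div_mul_eq_mul_div, le_div_iff₀ hr]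
          have := abs_nonneg κ
          have : |κ| * h * r ≤ |κ| * h * h := by gcongr
          linarith
        have h9 : C * h ^ 2 = 4 * W / r ^ 2 * h ^ 2 + |κ| / r * h ^ 2 := by rw [hC]; ring
        have h10 : 0 ≤ ε / 4 * h := by positivity
        linarith
    filter_upwards [eventually_gt_atTop (0:ℝ), eventually_gt_atTop (4 * C / ε + 1)] with a ha ha2
    have hi1 := (lap_pow ha 1)
    have hi2 := (lap_pow ha 2)
    have hG : IntegrableOn (fun h : ℝ => Real.exp (-(a * h)) * GG d t h) (Ioi 0) := by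
      refine Integrable.mono' (g := fun h : ℝ => Real.exp (-(a * h)) * (4 * W)) ((lap_exp ha).1.mul_const _)
        ((Continuous.mul (by fun_prop) (GG_cont H)).aestronglyMeasurable) (Eventually.of_forall fun h => ?_)
      rw [norm_mul, Real.norm_eq_abs, Real.norm_eq_abs, abs_of_pos (Real.exp_pos _),
        abs_of_nonneg (GG_nonneg H h), hW]
      exact mul_le_mul_of_nonneg_left (GG_le H h) (Real.exp_pos _).le
    have hK : IntegrableOn (fun h : ℝ => κ * (Real.exp (-(a * h)) * h ^ 1)) (Ioi 0) := hi1.1.const_mul κ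
    have h4 : a ^ 2 * (∫ h in Ioi (0:ℝ), Real.exp (-(a * h)) * GG d t h) - κ =
        a ^ 2 * ∫ h in Ioi (0:ℝ), (Real.exp (-(a * h)) * GG d t h - κ * (Real.exp (-(a * h)) * h ^ 1)) := by
      rw [integral_sub hG hK, integral_const_mul, hi1.2]
      simp only [Nat.factorial_one]
      field_simp
      push_cast
      ring
    rw [Real.dist_eq, h4, abs_mul, abs_of_nonneg (by positivity : 0 ≤ a ^ 2)]
    have h5 : |∫ h in Ioi (0:ℝ), (Real.exp (-(a * h)) * GG d t h - κ * (Real.exp (-(a * h)) * h ^ 1))| ≤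
        ∫ h in Ioi (0:ℝ), (ε / 4 * (Real.exp (-(a * h)) * h ^ 1) + C * (Real.exp (-(a * h)) * h ^ 2)) := by
      rw [← Real.norm_eq_abs]
      refine norm_integral_le_of_norm_le ((hi1.1.const_mul _).add (hi2.1.const_mul _)) ?_
      filter_upwards [ae_restrict_mem measurableSet_Ioi] with h hh
      have hh' : 0 < h := hh
      have h6 := hpt h hh'
      have h7 : Real.exp (-(a * h)) * GG d t h - κ * (Real.exp (-(a * h)) * h ^ 1) =
          Real.exp (-(a * h)) * (GG d t h - κ * h) := by ring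
      rw [h7, norm_mul, Real.norm_eq_abs, Real.norm_eq_abs, abs_of_pos (Real.exp_pos _)]
      have h8 : ε / 4 * (Real.exp (-(a * h)) * h ^ 1) + C * (Real.exp (-(a * h)) * h ^ 2) =
          Real.exp (-(a * h)) * (ε / 4 * h + C * h ^ 2) := by ring
      rw [h8]
      exact mul_le_mul_of_nonneg_left h6 (Real.exp_pos _).le
    rw [integral_add (hi1.1.const_mul _) (hi2.1.const_mul _), integral_const_mul, integral_const_mul,
      hi1.2, hi2.2] at h5
    have h6 : a ^ 2 * (ε / 4 * ((Nat.factorial 1 : ℕ) / a ^ (1 + 1)) + C * ((Nat.factorial 2 : ℕ) / a ^ (2 + 1))) =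
        ε / 4 + 2 * C / a := by
      simp only [Nat.factorial_one, Nat.factorial_two]
      push_cast
      field_simp
    have h7 : 2 * C / a < ε / 2 + ε / 4 := by
      have h8 : 4 * C / ε < a := by linarith
      rw [div_lt_iff₀ hε] at h8
      rw [div_lt_iff₀ ha]
      nlinarith
    calc a ^ 2 * |∫ h in Ioi (0:ℝ), (Real.exp (-(a * h)) * GG d t h - κ * (Real.exp (-(a * h)) * h ^ 1))|
        ≤ a ^ 2 * (ε / 4 * ((Nat.factorial 1 : ℕ) / a ^ (1 + 1)) +
          C * ((Nat.factorial 2 : ℕ) / a ^ (2 + 1))) := by gcongr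
      _ = ε / 4 + 2 * C / a := h6
      _ < ε := by linarith
  have h2 : Tendsto (fun a : ℝ => a / 2 * ∑' i, d i / (1 / 4 + t i ^ 2) / (a ^ 2 + t i ^ 2)) atTop (𝓝 0) := by
    have h3 : Tendsto (fun a : ℝ => WW d t / 2 * a⁻¹) atTop (𝓝 0) := by
      simpa using (tendsto_inv_atTop_zero (𝕜 := ℝ)).const_mul (WW d t / 2)
    refine squeeze_zero' ?_ ?_ h3
    · filter_upwards [eventually_ge_atTop (1 / 2 : ℝ)] with a ha
      exact (rest_le H ha).1
    · filter_upwards [eventually_ge_atTop (1 / 2 : ℝ)] with a ha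
      exact (rest_le H ha).2
  have h3 := (h1.add h2).div_const 2
  rw [add_zero] at h3
  refine h3.congr' ?_
  filter_upwards [eventually_ge_atTop (1 / 2 : ℝ)] with a ha
  rw [lap_St H ha]
  ring

end Pool.Agent.Q276.MW.TB
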