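import Pool.Agent.Q276.MW.B3

/-! The increments, the counting function and the kernel: equivalences. -/

set_option autoImplicit false

open MeasureTheory Filter Topology Set

namespace Pool.Agent.Q276.MW.TB

variable {ι : Type*} {d t : ι → ℝ}

lemma two_sub_cos (x : ℝ) : 2 - 2 * Real.cos x = x ^ 2 * Real.sinc (x / 2) ^ 2 := by
  rcases eq_or_ne x 0 with rfl | hx
  · simp
  · rw [Real.sinc_of_ne_zero (by simpa using hx)]
    have h1 := Real.cos_sq (x / 2)
    have h2 := Real.sin_sq_add_cos_sq (x / 2)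
    have h3 : Real.cos (x / 2) ^ 2 = 1 / 2 + Real.cos x / 2 := by
      rw [h1]
      congr 3
      ring
    field_simp
    nlinarith

/-- the squared cardinal sine -/
noncomputable def kk (u : ℝ) : ℝ := Real.sinc (u / 2) ^ 2

lemma kk_cont : Continuous kk := by
  unfold kk
  exact (Real.continuous_sinc.comp (by fun_prop)).pow 2

lemma kk_nonneg (u : ℝ) : 0 ≤ kk u := sq_nonneg _

lemma kk_le_one (u : ℝ) : kk u ≤ 1 := by
  unfold kk
  rw [← sq_abs]
  exact pow_le_one₀ (abs_nonneg _) (Real.abs_sinc_le_one _)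

lemma kk_le (u : ℝ) : u ^ 2 * kk u ≤ 4 := by
  unfold kk
  rw [← two_sub_cos]
  linarith [Real.neg_one_le_cos u]

lemma kk_le' {R u : ℝ} (hR : 0 < R) (hu : R ≤ u) : kk u ≤ 8 / (R ^ 2 + u ^ 2) := by
  have h1 := kk_le u
  have hu0 : 0 < u := hR.trans_le hu
  rw [le_div_iff₀ (by positivity)]
  have h2 : R ^ 2 ≤ u ^ 2 := pow_le_pow_left₀ hR.le hu 2
  have h3 := kk_nonneg u
  nlinarith

lemma GG_eq (H : HY d t) {T : ℝ} (hT : 0 < T) :
    T * GG d t (1 / T) = (∑' i, (d i * kk (t i / T) - d i / (1 / 4 + t i ^ 2) / 4 * kk (t i / T))) / T := by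
  unfold GG
  have e1 : ∀ i, d i / (1 / 4 + t i ^ 2) * (2 - 2 * Real.cos (t i * (1 / T))) =
      (T ^ 2)⁻¹ * (d i * kk (t i / T) - d i / (1 / 4 + t i ^ 2) / 4 * kk (t i / T)) := by
    intro i
    rw [two_sub_cos]
    have h1 : t i * (1 / T) = t i / T := by ring
    have h2 : (1:ℝ) + 4 * t i ^ 2 ≠ 0 := by positivity
    rw [h1]
    unfold kk
    field_simp
    ring
  rw [tsum_congr e1, tsum_mul_left]
  generalize (∑' i, (d i * kk (t i / T) - d i / (1 / 4 + t i ^ 2) / 4 * kk (t i / T))) = S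
  field_simp

theorem GG_lim_exists (H : HY d t) {m : ℝ} (hm : Tendsto (fun a => a * St d t a) atTop (𝓝 m)) :
    ∃ κ : ℝ, Tendsto (fun T : ℝ => T * GG d t (1 / T)) atTop (𝓝 κ) := by
  have hm0 : 0 ≤ m := ge_of_tendsto hm (by
    filter_upwards [eventually_ge_atTop (0:ℝ)] with a ha
    exact mul_nonneg ha (St_nonneg H a))
  refine Pool.Agent.TH223.AP.exists_lim_of_approx _ fun ε hε => ?_
  obtain ⟨R, hR⟩ : ∃ R : ℝ, R = 16 * (m + 1) / ε := ⟨_, rfl⟩
  have hR0 : 0 < R := by rw [hR]; positivity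
  obtain ⟨ψ, hψ⟩ : ∃ ψ : ℝ → ℝ, ψ = fun u => kk u * rp 2 (u / R) := ⟨_, rfl⟩
  have hψc : Continuous ψ := by
    rw [hψ]
    exact kk_cont.mul ((rp_cont 2).comp (by fun_prop))
  have hψ0 : ∀ u, 2 * R ≤ u → ψ u = 0 := by
    intro u hu
    rw [hψ]
    simp only
    rw [rp_zero one_lt_two ((le_div_iff₀ hR0).2 hu), mul_zero]
  have hψB : ∀ u, |ψ u| ≤ 1 := by
    intro u
    rw [hψ]
    simp only
    have h1 := kk_nonneg u
    have h2 := kk_le_one u
    have h3 := rp_nonneg 2 (u / R)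
    have h4 := rp_le_one 2 (u / R)
    rw [abs_of_nonneg (mul_nonneg h1 h3)]
    exact mul_le_one₀ h2 h3 h4
  refine ⟨_, ⟨_, ET_lim H hm hψc (by positivity : 0 ≤ 2 * R) hψ0⟩, ?_⟩
  have h1 : Tendsto (fun T : ℝ => R * T) atTop atTop := Tendsto.const_mul_atTop hR0 tendsto_id
  have h2 := hm.comp h1
  have h3 := h2.eventually (gt_mem_nhds (lt_add_one m))
  obtain ⟨W, hW⟩ : ∃ W : ℝ, W = WW d t := ⟨_, rfl⟩
  have hW0 : 0 ≤ W := hW ▸ WW_nonneg H
  filter_upwards [h3, h1.eventually (eventually_ge_atTop (1 / 2 : ℝ)), eventually_gt_atTop (0:ℝ),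
    eventually_ge_atTop (W / ε)] with T hT1 hT2 hT hT3
  simp only [Function.comp] at hT1
  rw [GG_eq H hT, ← sub_div]
  have hb : ∀ i, |d i * kk (t i / T) - d i / (1 / 4 + t i ^ 2) / 4 * kk (t i / T) -
      d i * ψ (t i / T)| ≤ 8 * T ^ 2 * (d i / ((R * T) ^ 2 + t i ^ 2)) +
        1 / 4 * (d i / (1 / 4 + t i ^ 2)) := by
    intro i
    have g1 := H.d0 i
    have g2 := H.t0 i
    have g3 := w_nonneg H i
    have k0 := kk_nonneg (t i / T)
    have k1 := kk_le_one (t i / T)
    have e1 : |d i * kk (t i / T) - d i * ψ (t i / T)| ≤ 8 * T ^ 2 * (d i / ((R * T) ^ 2 + t i ^ 2)) := by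
      rcases le_or_gt (t i / T) R with h | h
      · have : ψ (t i / T) = kk (t i / T) := by
          rw [hψ]
          simp only
          rw [rp_one one_lt_two ((div_le_one hR0).2 h), mul_one]
        rw [this, sub_self, abs_zero]
        positivity
      · have h4 := rp_nonneg 2 (t i / T / R)
        have h5 := rp_le_one 2 (t i / T / R)
        have h6 : d i * kk (t i / T) - d i * ψ (t i / T) =
            d i * (kk (t i / T) * (1 - rp 2 (t i / T / R))) := by
          rw [hψ]; ring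
        rw [h6, abs_of_nonneg (mul_nonneg g1 (mul_nonneg k0 (by linarith)))]
        have h7 := kk_le' hR0 h.le
        have h8 : kk (t i / T) * (1 - rp 2 (t i / T / R)) ≤ 8 / (R ^ 2 + (t i / T) ^ 2) := by
          refine le_trans ?_ h7
          exact mul_le_of_le_one_right k0 (by linarith)
        refine (mul_le_mul_of_nonneg_left h8 g1).trans (le_of_eq ?_)
        have h9 : R ^ 2 + (t i / T) ^ 2 = ((R * T) ^ 2 + t i ^ 2) / T ^ 2 := by
          field_simp
        rw [h9]
        field_simp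
    have e2 : |d i / (1 / 4 + t i ^ 2) / 4 * kk (t i / T)| ≤ 1 / 4 * (d i / (1 / 4 + t i ^ 2)) := by
      rw [abs_of_nonneg (by positivity)]
      nlinarith
    have e3 : d i * kk (t i / T) - d i / (1 / 4 + t i ^ 2) / 4 * kk (t i / T) - d i * ψ (t i / T) =
        (d i * kk (t i / T) - d i * ψ (t i / T)) - d i / (1 / 4 + t i ^ 2) / 4 * kk (t i / T) := by ring
    rw [e3]
    exact (abs_sub _ _).trans (add_le_add e1 e2)
  have hsb : Summable fun i => 8 * T ^ 2 * (d i / ((R * T) ^ 2 + t i ^ 2)) +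
      1 / 4 * (d i / (1 / 4 + t i ^ 2)) := ((H.sm_a hT2).mul_left _).add (H.sm.mul_left _)
  have hs2 := sm_psi H hψ0 hψB hT
  have hs3 : Summable fun i => d i * kk (t i / T) - d i / (1 / 4 + t i ^ 2) / 4 * kk (t i / T) -
      d i * ψ (t i / T) := Summable.of_norm_bounded hsb fun i => by
    rw [Real.norm_eq_abs]
    exact hb i
  have hs1 : Summable fun i => d i * kk (t i / T) - d i / (1 / 4 + t i ^ 2) / 4 * kk (t i / T) := by
    refine (hs3.add hs2).congr fun i => ?_
    ring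
  rw [← hs1.tsum_sub hs2, abs_div, abs_of_pos hT, div_le_iff₀ hT]
  have h4 : |∑' i, (d i * kk (t i / T) - d i / (1 / 4 + t i ^ 2) / 4 * kk (t i / T) -
      d i * ψ (t i / T))| ≤ ∑' i, (8 * T ^ 2 * (d i / ((R * T) ^ 2 + t i ^ 2)) +
      1 / 4 * (d i / (1 / 4 + t i ^ 2))) := by
    rw [← Real.norm_eq_abs]
    refine tsum_of_norm_bounded hsb.hasSum fun i => ?_
    rw [Real.norm_eq_abs]
    exact hb i
  refine h4.trans ?_
  rw [((H.sm_a hT2).mul_left _).tsum_add (H.sm.mul_left _), tsum_mul_left, tsum_mul_left]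
  have h5 : 8 * T ^ 2 * ∑' i, d i / ((R * T) ^ 2 + t i ^ 2) = 8 / R * T * (R * T * St d t (R * T)) := by
    unfold St
    field_simp
  have h6 : 8 / R * T * (R * T * St d t (R * T)) ≤ 8 / R * T * (m + 1) := by gcongr
  have h7 : 8 / R * T * (m + 1) = ε / 2 * T := by
    rw [hR]
    field_simp
    ring
  have h8 : 1 / 4 * ∑' i, d i / (1 / 4 + t i ^ 2) ≤ ε / 4 * T := by
    have h9 : W ≤ ε * T := by
      rw [div_le_iff₀ hε] at hT3
      linarith
    have h10 : ∑' i, d i / (1 / 4 + t i ^ 2) = W := hW.symm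
    rw [h10]
    linarith
  rw [h5]
  nlinarith

variable [Countable ι]

/-- from the kernel to the increments -/
theorem GG_of_St (H : HY d t) {m : ℝ} (hm : Tendsto (fun a => a * St d t a) atTop (𝓝 m)) :
    Tendsto (fun h => GG d t h / h) (𝓝[>] 0) (𝓝 (2 * m)) := by
  obtain ⟨κ, hκ⟩ := GG_lim_exists H hm
  have h1 : Tendsto (fun h => GG d t h / h) (𝓝[>] 0) (𝓝 κ) := by
    refine (hκ.comp tendsto_inv_nhdsGT_zero).congr' ?_
    filter_upwards [self_mem_nhdsWithin] with h hh
    have hh' : 0 < h := hh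
    simp only [Function.comp]
    rw [one_div, inv_inv]
    ring
  have h2 := St_of_GG H h1
  have h3 := tendsto_nhds_unique hm h2
  have h4 : 2 * m = κ := by rw [h3]; ring
  rw [h4]
  exact h1

omit [Countable ι] in
lemma NN_meas (H : HY d t) : Measurable (NN d t) := by
  have : Monotone (NN d t) := fun S T h => NN_mono H h
  exact this.measurable

/-- the density -/
noncomputable def qq (a v : ℝ) : ℝ := 2 * v / (a ^ 2 + v ^ 2) ^ 2

lemma qq_int {a x : ℝ} (ha : 0 < a) (hx : 0 ≤ x) : IntegrableOn (qq a) (Ioi x) ∧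
    ∫ v in Ioi x, qq a v = 1 / (a ^ 2 + x ^ 2) := by
  have hder : ∀ v ∈ Ici x, HasDerivAt (fun v : ℝ => -(a ^ 2 + v ^ 2)⁻¹) (qq a v) v := by
    intro v _
    have h1 : HasDerivAt (fun v : ℝ => a ^ 2 + v ^ 2) (2 * v) v := by
      simpa using (hasDerivAt_pow 2 v).const_add (a ^ 2)
    have h2 := (h1.inv (by positivity)).neg
    refine h2.congr_deriv ?_
    unfold qq
    ring
  have hpos : ∀ v ∈ Ioi x, 0 ≤ qq a v := by
    intro v hv
    have : 0 < v := lt_of_le_of_lt hx hv
    unfold qq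
    positivity
  have hlim : Tendsto (fun v : ℝ => -(a ^ 2 + v ^ 2)⁻¹) atTop (𝓝 0) := by
    rw [← neg_zero]
    refine Tendsto.neg (tendsto_inv_atTop_zero.comp ?_)
    exact tendsto_atTop_add_const_left _ _ (tendsto_pow_atTop two_ne_zero)
  refine ⟨integrableOn_Ioi_deriv_of_nonneg' hder hpos hlim, ?_⟩
  rw [integral_Ioi_of_hasDerivAt_of_nonneg' hder hpos hlim]
  ring

lemma qq_step {a x : ℝ} (ha : 0 < a) (hx : 0 ≤ x) :
    IntegrableOn (fun v => if x ≤ v then qq a v else 0) (Ioi 0) ∧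
    ∫ v in Ioi (0:ℝ), (if x ≤ v then qq a v else 0) = 1 / (a ^ 2 + x ^ 2) := by
  have h0 : (fun v => if x ≤ v then qq a v else 0) = (Ici x).indicator (qq a) := by
    funext v
    by_cases h : x ≤ v
    · rw [if_pos h, indicator_of_mem (show v ∈ Ici x from h)]
    · rw [if_neg h, indicator_of_notMem (show v ∉ Ici x from h)]
  rw [h0]
  constructor
  · exact ((qq_int ha le_rfl).1).indicator measurableSet_Ici
  · rw [setIntegral_indicator measurableSet_Ici]
    rcases hx.eq_or_lt with rfl | hx'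
    · have h1 : Ioi (0:ℝ) ∩ Ici 0 = Ioi 0 := inter_eq_left.2 Ioi_subset_Ici_self
      rw [h1]
      exact (qq_int ha le_rfl).2
    · have h1 : Ioi (0:ℝ) ∩ Ici x = Ici x := inter_eq_right.2 fun v hv => lt_of_lt_of_le hx' hv
      rw [h1, integral_Ici_eq_integral_Ioi]
      exact (qq_int ha hx).2

lemma St_int (H : HY d t) {a : ℝ} (ha : 1 / 2 ≤ a) :
    St d t a = ∫ v in Ioi (0:ℝ), NN d t v * qq a v := by
  have ha0 : 0 < a := by linarith
  have e1 : ∀ v : ℝ, NN d t v * qq a v = ∑' i, d i * (if t i ≤ v then qq a v else 0) := by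
    intro v
    unfold NN
    rw [← tsum_mul_right]
    refine tsum_congr fun i => ?_
    split_ifs <;> ring
  simp only [e1]
  have hI : ∀ i, IntegrableOn (fun v => d i * (if t i ≤ v then qq a v else 0)) (Ioi 0) := fun i =>
    (qq_step ha0 (H.t0 i)).1.const_mul _
  have hV : ∀ i, ∫ v in Ioi (0:ℝ), d i * (if t i ≤ v then qq a v else 0) = d i / (a ^ 2 + t i ^ 2) := by
    intro i
    rw [integral_const_mul, (qq_step ha0 (H.t0 i)).2]
    ring
  have hN : ∀ i, ∫ v in Ioi (0:ℝ), ‖d i * (if t i ≤ v then qq a v else 0)‖ = d i / (a ^ 2 + t i ^ 2) := by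
    intro i
    rw [← hV i]
    refine setIntegral_congr_fun measurableSet_Ioi fun v hv => ?_
    have hv' : 0 < v := hv
    rw [Real.norm_eq_abs, abs_of_nonneg]
    refine mul_nonneg (H.d0 i) ?_
    split_ifs
    · unfold qq
      positivity
    · exact le_rfl
  rw [← integral_tsum_of_summable_integral_norm hI]
  · unfold St
    exact (tsum_congr hV).symm
  · simp only [hN]
    exact H.sm_a ha

lemma St_scaled (H : HY d t) {a : ℝ} (ha : 1 / 2 ≤ a) :
    a * St d t a = ∫ u in Ioi (0:ℝ), NN d t (a * u) / a * qq 1 u := by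
  have ha0 : 0 < a := by linarith
  rw [St_int H ha]
  have h1 := integral_comp_mul_left_Ioi (fun v => NN d t v * qq a v) 0 ha0
  rw [mul_zero, smul_eq_mul] at h1
  have h2 : ∫ v in Ioi (0:ℝ), NN d t v * qq a v = a * ∫ u in Ioi (0:ℝ), NN d t (a * u) * qq a (a * u) := by
    rw [h1]
    field_simp
  rw [h2, ← integral_const_mul, ← integral_const_mul]
  refine setIntegral_congr_fun measurableSet_Ioi fun u _ => ?_
  unfold qq
  have h3 : (1:ℝ) + u ^ 2 ≠ 0 := by positivity
  have h4 : a ^ 2 + (a * u) ^ 2 = a ^ 2 * (1 + u ^ 2) := by ring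
  rw [h4]
  field_simp

lemma qq_le {u : ℝ} (hu : 0 < u) : (1 + u) * qq 1 u ≤ 4 * (1 + u ^ 2)⁻¹ := by
  unfold qq
  rw [← div_eq_mul_inv, mul_div_assoc', div_le_div_iff₀ (by positivity) (by positivity)]
  have h1 : (1 + u) * (2 * u) ≤ 4 * (1 + u ^ 2) := by nlinarith [sq_nonneg (u - 1)]
  have h2 : 0 < 1 + u ^ 2 := by positivity
  have h3 : (1:ℝ) ^ 2 + u ^ 2 = 1 + u ^ 2 := by ring
  rw [h3]
  nlinarith [mul_le_mul_of_nonneg_right h1 h2.le]

lemma qq_nonneg {u : ℝ} (hu : 0 < u) (a : ℝ) : 0 ≤ qq a u := by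
  unfold qq
  positivity

/-- from the counting function to the kernel -/
theorem St_of_NN (H : HY d t) {c : ℝ} (hc : Tendsto (fun T : ℝ => NN d t T / T) atTop (𝓝 c)) :
    Tendsto (fun a => a * St d t a) atTop (𝓝 (c * Real.pi / 2)) := by
  -- the linear bound
  obtain ⟨C, hC0, hC⟩ : ∃ C : ℝ, 0 ≤ C ∧ ∀ v : ℝ, 0 ≤ v → NN d t v ≤ C * (1 + v) := by
    have h1 := hc.eventually (gt_mem_nhds (lt_add_one c))
    obtain ⟨T0, hT0⟩ := eventually_atTop.1 (h1.and (eventually_gt_atTop (0:ℝ)))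
    refine ⟨|c + 1| + NN d t T0, add_nonneg (abs_nonneg _) (NN_nonneg H _), fun v hv => ?_⟩
    have hn := NN_nonneg H T0
    rcases le_total T0 v with h | h
    · obtain ⟨h2, h3⟩ := hT0 v h
      rw [div_lt_iff₀ h3] at h2
      have h4 := le_abs_self (c + 1)
      nlinarith [abs_nonneg (c + 1)]
    · have h2 := NN_mono H h
      nlinarith [abs_nonneg (c + 1)]
  obtain ⟨K, hK⟩ : ∃ K : ℝ, K = ∫ u in Ioi (0:ℝ), u * qq 1 u := ⟨_, rfl⟩
  have hlim : Tendsto (fun a => a * St d t a) atTop (𝓝 (c * K)) := by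
    have h1 : Tendsto (fun a : ℝ => ∫ u in Ioi (0:ℝ), NN d t (a * u) / a * qq 1 u) atTop
        (𝓝 (∫ u in Ioi (0:ℝ), c * (u * qq 1 u))) := by
      refine tendsto_integral_filter_of_dominated_convergence (fun u => C * (4 * (1 + u ^ 2)⁻¹)) ?_ ?_ ?_ ?_
      · refine Eventually.of_forall fun a => ?_
        refine Measurable.aestronglyMeasurable ?_
        refine Measurable.mul (((NN_meas H).comp (measurable_const_mul a)).div_const a) ?_
        unfold qq
        fun_prop
      · filter_upwards [eventually_ge_atTop (1:ℝ)] with a ha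
        filter_upwards [ae_restrict_mem measurableSet_Ioi] with u hu
        have hu' : 0 < u := hu
        have ha0 : 0 < a := by linarith
        rw [Real.norm_eq_abs, abs_of_nonneg (mul_nonneg (div_nonneg (NN_nonneg H _) ha0.le)
          (qq_nonneg hu' 1))]
        have h2 := hC (a * u) (by positivity)
        have h3 : NN d t (a * u) / a ≤ C * (1 + u) := by
          rw [div_le_iff₀ ha0]
          refine h2.trans ?_
          nlinarith [mul_nonneg hC0 (by linarith : (0:ℝ) ≤ a - 1)]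
        have h4 := qq_le hu'
        have h5 := qq_nonneg hu' 1
        calc NN d t (a * u) / a * qq 1 u ≤ C * (1 + u) * qq 1 u := by gcongr
          _ = C * ((1 + u) * qq 1 u) := by ring
          _ ≤ _ := by gcongr
      · exact ((integrable_inv_one_add_sq.integrableOn).const_mul 4).const_mul C
      · filter_upwards [ae_restrict_mem measurableSet_Ioi] with u hu
        have hu' : 0 < u := hu
        have h2 : Tendsto (fun a : ℝ => a * u) atTop atTop := Tendsto.atTop_mul_const hu' tendsto_id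
        have h3 := (hc.comp h2).mul_const (u * qq 1 u)
        refine h3.congr' ?_
        filter_upwards [eventually_gt_atTop (0:ℝ)] with a ha
        simp only [Function.comp]
        field_simp
    rw [integral_const_mul, ← hK] at h1
    refine h1.congr' ?_
    filter_upwards [eventually_ge_atTop (1 / 2 : ℝ)] with a ha
    rw [St_scaled H ha]
  have h2 := NN_lim H hlim
  have h3 := tendsto_nhds_unique hc h2
  have h4 : c * K = c * Real.pi / 2 := by
    have := Real.pi_ne_zero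
    rw [eq_div_iff this] at h3
    linarith
  rw [← h4]
  exact hlim

end Pool.Agent.Q276.MW.TB
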