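import Pool.Agent.Q276.MW.B4

/-! The increments and the counting function: bounds. -/

set_option autoImplicit false

open MeasureTheory Filter Topology Set

namespace Pool.Agent.Q276.MW.TB

variable {ι : Type*} {d t : ι → ℝ}

lemma cos_low {x : ℝ} (hx : |x| ≤ 1) : x ^ 2 / 2 ≤ 2 - 2 * Real.cos x := by
  have h1 := Real.cos_bound hx
  have h2 := (abs_le.1 h1).2
  have h3 : |x| ^ 4 = x ^ 2 * x ^ 2 := by
    have : |x| ^ 4 = (|x| ^ 2) ^ 2 := by ring
    rw [this, sq_abs]
    ring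
  have h4 : x ^ 2 ≤ 1 := by
    rw [← sq_abs]
    exact pow_le_one₀ (abs_nonneg _) hx
  rw [h3] at h2
  nlinarith [sq_nonneg x]

/-- the counting function is controlled by the increments -/
lemma NN_le_GG (H : HY d t) {T : ℝ} (hT : 1 ≤ T) :
    NN d t T ≤ NN d t 1 + 5 / 2 * T ^ 2 * GG d t (1 / T) := by
  have hT0 : 0 < T := by linarith
  unfold NN GG
  rw [← tsum_mul_left, ← (NN_sm H 1).tsum_add ((GG_sm H (1 / T)).mul_left _)]
  refine (NN_sm H T).tsum_le_tsum (fun i => ?_) ((NN_sm H 1).add ((GG_sm H (1 / T)).mul_left _))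
  have h1 := H.d0 i
  have h2 := H.t0 i
  have h3 : 0 ≤ 5 / 2 * T ^ 2 * (d i / (1 / 4 + t i ^ 2) * (2 - 2 * Real.cos (t i * (1 / T)))) :=
    mul_nonneg (by positivity) (GG_term_nonneg H _ i)
  by_cases h4 : t i ≤ 1
  · rw [if_pos h4, if_pos (h4.trans hT)]
    linarith
  · rw [if_neg h4, zero_add]
    push Not at h4
    split_ifs with h5
    · have h6 : |t i * (1 / T)| ≤ 1 := by
        rw [abs_of_nonneg (by positivity), mul_one_div, div_le_one hT0]
        exact h5
      have h7 := cos_low h6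
      have h8 := w_nonneg H i
      have h9 : 5 / 2 * T ^ 2 * (d i / (1 / 4 + t i ^ 2) * ((t i * (1 / T)) ^ 2 / 2)) ≤
          5 / 2 * T ^ 2 * (d i / (1 / 4 + t i ^ 2) * (2 - 2 * Real.cos (t i * (1 / T)))) := by gcongr
      refine le_trans ?_ h9
      have h10 : 5 / 2 * T ^ 2 * (d i / (1 / 4 + t i ^ 2) * ((t i * (1 / T)) ^ 2 / 2)) =
          d i * (5 * t i ^ 2 / (1 + 4 * t i ^ 2)) := by
        have : (1:ℝ) + 4 * t i ^ 2 ≠ 0 := by positivity
        field_simp
        ring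
      rw [h10]
      have h11 : 1 ≤ 5 * t i ^ 2 / (1 + 4 * t i ^ 2) := by
        rw [le_div_iff₀ (by positivity)]
        nlinarith
      nlinarith
    · exact h3

/-- the increments are controlled by the kernel -/
lemma GG_le_St (H : HY d t) {h : ℝ} (hh : 0 < h) (hh1 : h ≤ 1) :
    GG d t h ≤ 8 * h * ((1 / h) * St d t (1 / h)) := by
  have hT : 1 / 2 ≤ 1 / h := by
    rw [div_le_div_iff₀ two_pos hh]
    linarith
  have e1 : 8 * h * ((1 / h) * St d t (1 / h)) = 8 * St d t (1 / h) := by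
    field_simp
  rw [e1]
  unfold GG St
  rw [← tsum_mul_left]
  refine (GG_sm H h).tsum_le_tsum (fun i => ?_) ((H.sm_a hT).mul_left 8)
  have h1 := H.d0 i
  have h2 := H.t0 i
  rw [two_sub_cos]
  have k0 := kk_nonneg (t i * h)
  have k1 := kk_le_one (t i * h)
  have k2 := kk_le (t i * h)
  have e2 : Real.sinc (t i * h / 2) ^ 2 = kk (t i * h) := rfl
  rw [e2]
  have h3 : d i / (1 / 4 + t i ^ 2) * ((t i * h) ^ 2 * kk (t i * h)) ≤ d i * (h ^ 2 * kk (t i * h)) := by
    have h4 : d i / (1 / 4 + t i ^ 2) * ((t i * h) ^ 2 * kk (t i * h)) =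
        (t i ^ 2 / (1 / 4 + t i ^ 2)) * (d i * (h ^ 2 * kk (t i * h))) := by ring
    rw [h4]
    refine mul_le_of_le_one_left (by positivity) ?_
    rw [div_le_one (by positivity)]
    linarith
  refine h3.trans ?_
  have h5 : 8 * (d i / ((1 / h) ^ 2 + t i ^ 2)) = d i * (8 * h ^ 2 / (1 + (t i * h) ^ 2)) := by
    field_simp
  rw [h5]
  refine mul_le_mul_of_nonneg_left ?_ h1
  rw [le_div_iff₀ (by positivity)]
  have h6 : h ^ 2 * (kk (t i * h) * (1 + (t i * h) ^ 2)) ≤ h ^ 2 * 8 := by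
    refine mul_le_mul_of_nonneg_left ?_ (sq_nonneg h)
    nlinarith
  linarith

/-- the dominating function -/
noncomputable def dm (β u : ℝ) : ℝ := 8 * (u + 1) ^ (β - 3)

lemma dm_int {β : ℝ} (hβ : β < 2) : IntegrableOn (dm β) (Ioi 0) :=
  (integrableOn_add_rpow_Ioi_of_lt (by linarith) (by norm_num)).const_mul 8

lemma dm_le {β u : ℝ} (hu : 0 < u) : (1 + u) ^ β * qq 1 u ≤ dm β u := by
  unfold qq dm
  have h0 : 0 < 1 + u := by linarith
  have h1 : (u + 1) ^ (β - 3) = (1 + u) ^ β / (1 + u) ^ 3 := by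
    rw [add_comm u 1, Real.rpow_sub h0]
    congr 1
    exact_mod_cast Real.rpow_natCast (1 + u) 3
  rw [h1]
  have h2 : 8 * ((1 + u) ^ β / (1 + u) ^ 3) = (1 + u) ^ β * (8 / (1 + u) ^ 3) := by ring
  rw [h2]
  refine mul_le_mul_of_nonneg_left ?_ (Real.rpow_nonneg h0.le β)
  rw [div_le_div_iff₀ (by positivity) (by positivity)]
  have h3 : (1 + u) ^ 2 ≤ 2 * (1 ^ 2 + u ^ 2) := by nlinarith [sq_nonneg (u - 1)]
  have h4 : (1 + u) ^ 4 ≤ 4 * (1 ^ 2 + u ^ 2) ^ 2 := by
    have := pow_le_pow_left₀ (by positivity) h3 2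
    calc (1 + u) ^ 4 = ((1 + u) ^ 2) ^ 2 := by ring
      _ ≤ (2 * (1 ^ 2 + u ^ 2)) ^ 2 := this
      _ = _ := by ring
  have h5 : 2 * u * (1 + u) ^ 3 ≤ 2 * (1 + u) ^ 4 := by
    have : 0 ≤ (1 + u) ^ 3 := by positivity
    nlinarith
  linarith

/-- the constant -/
noncomputable def Kb (β : ℝ) : ℝ := ∫ u in Ioi (0:ℝ), dm β u

lemma Kb_nonneg (β : ℝ) : 0 ≤ Kb β := by
  refine setIntegral_nonneg measurableSet_Ioi fun u hu => ?_
  have hu' : 0 < u := hu
  unfold dm
  positivity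

variable [Countable ι]

/-- a bound for the counting function bounds the kernel -/
lemma St_le (H : HY d t) {C β : ℝ} (hβ0 : 0 ≤ β) (hβ : β < 2) (hC0 : 0 ≤ C)
    (hC : ∀ v : ℝ, 0 ≤ v → NN d t v ≤ C * (1 + v) ^ β) {a : ℝ}
    (ha : 1 ≤ a) : a * St d t a ≤ C * a ^ (β - 1) * Kb β := by
  have ha0 : 0 < a := by linarith
  rw [St_scaled H (by linarith)]
  have hdom : ∀ u ∈ Ioi (0:ℝ), NN d t (a * u) / a * qq 1 u ≤ C * a ^ (β - 1) * dm β u := by
    intro u hu
    have hu' : 0 < u := hu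
    have h2 := hC (a * u) (by positivity)
    have h3 : NN d t (a * u) / a ≤ C * a ^ (β - 1) * (1 + u) ^ β := by
      rw [div_le_iff₀ ha0]
      refine h2.trans ?_
      have e1 : (1 + a * u) ^ β ≤ (a * (1 + u)) ^ β := by
        refine Real.rpow_le_rpow (by positivity) ?_ hβ0
        nlinarith
      have e2 : (a * (1 + u)) ^ β = a ^ (β - 1) * a * (1 + u) ^ β := by
        rw [Real.mul_rpow ha0.le (by linarith)]
        congr 1
        rw [Real.rpow_sub ha0, Real.rpow_one]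
        field_simp
      calc C * (1 + a * u) ^ β ≤ C * (a * (1 + u)) ^ β := by gcongr
        _ = _ := by rw [e2]; ring
    have h5 := qq_nonneg hu' 1
    have h6 := dm_le (β := β) hu'
    calc NN d t (a * u) / a * qq 1 u ≤ C * a ^ (β - 1) * (1 + u) ^ β * qq 1 u := by gcongr
      _ = C * a ^ (β - 1) * ((1 + u) ^ β * qq 1 u) := by ring
      _ ≤ _ := by gcongr
  have hI : IntegrableOn (fun u : ℝ => C * a ^ (β - 1) * dm β u) (Ioi 0) := (dm_int hβ).const_mul _
  have h1 : ∫ u in Ioi (0:ℝ), NN d t (a * u) / a * qq 1 u ≤ ∫ u in Ioi (0:ℝ), C * a ^ (β - 1) * dm β u := by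
    refine setIntegral_mono_on ?_ hI measurableSet_Ioi hdom
    refine Integrable.mono' hI ?_ ?_
    · refine Measurable.aestronglyMeasurable ?_
      refine Measurable.mul (((NN_meas H).comp (measurable_const_mul a)).div_const a) ?_
      unfold qq
      fun_prop
    · filter_upwards [ae_restrict_mem measurableSet_Ioi] with u hu
      have hu' : 0 < u := hu
      rw [Real.norm_eq_abs, abs_of_nonneg (mul_nonneg (div_nonneg (NN_nonneg H _) ha0.le)
        (qq_nonneg hu' 1))]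
      exact hdom u hu
  rw [integral_const_mul] at h1
  exact h1

/-- a bound for the counting function gives a bound for the increments -/
lemma GG_le_of_NN (H : HY d t) {C β : ℝ} (hβ0 : 0 ≤ β) (hβ : β < 2) (hC0 : 0 ≤ C)
    (hC : ∀ v : ℝ, 0 ≤ v → NN d t v ≤ C * (1 + v) ^ β)
    {h : ℝ} (hh : 0 < h) (hh1 : h ≤ 1) : GG d t h ≤ 8 * C * Kb β * h ^ (2 - β) := by
  have h1 := GG_le_St H hh hh1
  have h2 := St_le H hβ0 hβ hC0 hC (a := 1 / h) (by rw [le_div_iff₀ hh]; linarith)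
  have h3 : h * (1 / h) ^ (β - 1) = h ^ (2 - β) := by
    rw [one_div, Real.inv_rpow hh.le, ← Real.rpow_neg hh.le]
    nth_rewrite 1 [← Real.rpow_one h]
    rw [← Real.rpow_add hh]
    congr 1
    ring
  calc GG d t h ≤ 8 * h * ((1 / h) * St d t (1 / h)) := h1
    _ ≤ 8 * h * (C * (1 / h) ^ (β - 1) * Kb β) := by gcongr
    _ = 8 * C * Kb β * (h * (1 / h) ^ (β - 1)) := by ring
    _ = _ := by rw [h3]

omit [Countable ι] in
/-- summability from a bound for the counting function -/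
lemma sm_of_bdd (hd : ∀ i, 0 ≤ d i) (ht : ∀ i, 0 ≤ t i) {C β : ℝ} (hβ : β < 2) (hC0 : 0 ≤ C)
    (hC : ∀ (F : Finset ι) (v : ℝ), 0 ≤ v → ∑ i ∈ F, (if t i ≤ v then d i else 0) ≤ C * (1 + v) ^ β) :
    Summable fun i => d i / (1 / 4 + t i ^ 2) := by
  have h1 : ∀ F : Finset ι, ∑ i ∈ F, d i / (1 ^ 2 + t i ^ 2) ≤ C * Kb β := by
    intro F
    have hV : ∀ i, ∫ v in Ioi (0:ℝ), d i * (if t i ≤ v then qq 1 v else 0) = d i / (1 ^ 2 + t i ^ 2) := by
      intro i
      rw [integral_const_mul, (qq_step one_pos (ht i)).2]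
      ring
    have hI : ∀ i, IntegrableOn (fun v => d i * (if t i ≤ v then qq 1 v else 0)) (Ioi 0) := fun i =>
      (qq_step one_pos (ht i)).1.const_mul _
    have h2 : ∑ i ∈ F, d i / (1 ^ 2 + t i ^ 2) =
        ∫ v in Ioi (0:ℝ), ∑ i ∈ F, d i * (if t i ≤ v then qq 1 v else 0) := by
      rw [integral_finsetSum _ fun i _ => hI i]
      exact Finset.sum_congr rfl fun i _ => (hV i).symm
    rw [h2]
    have hJ : IntegrableOn (fun u : ℝ => C * dm β u) (Ioi 0) := (dm_int hβ).const_mul C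
    have h3 : ∫ v in Ioi (0:ℝ), ∑ i ∈ F, d i * (if t i ≤ v then qq 1 v else 0) ≤
        ∫ u in Ioi (0:ℝ), C * dm β u := by
      refine setIntegral_mono_on (integrable_finsetSum _ fun i _ => hI i) hJ measurableSet_Ioi ?_
      intro v hv
      have hv' : 0 < v := hv
      have e1 : ∑ i ∈ F, d i * (if t i ≤ v then qq 1 v else 0) =
          (∑ i ∈ F, (if t i ≤ v then d i else 0)) * qq 1 v := by
        rw [Finset.sum_mul]
        refine Finset.sum_congr rfl fun i _ => ?_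
        split_ifs <;> ring
      rw [e1]
      have h4 := dm_le (β := β) hv'
      have h5 := qq_nonneg hv' 1
      calc (∑ i ∈ F, (if t i ≤ v then d i else 0)) * qq 1 v ≤ C * (1 + v) ^ β * qq 1 v := by
            gcongr
            exact hC F v hv'.le
        _ = C * ((1 + v) ^ β * qq 1 v) := by ring
        _ ≤ _ := by gcongr
    rw [integral_const_mul] at h3
    exact h3
  have h2 : Summable fun i => d i / (1 ^ 2 + t i ^ 2) :=
    summable_of_sum_le (fun i => by have := hd i; positivity) h1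
  refine Summable.of_nonneg_of_le (fun i => by have := hd i; positivity) (fun i => ?_) (h2.mul_left 4)
  have := hd i
  rw [mul_div_assoc', div_le_div_iff₀ (by positivity) (by positivity)]
  have h3 : (1:ℝ) ^ 2 + t i ^ 2 ≤ 4 * (1 / 4 + t i ^ 2) := by nlinarith [sq_nonneg (t i)]
  nlinarith [mul_le_mul_of_nonneg_left h3 this]

end Pool.Agent.Q276.MW.TB
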