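import Pool.Agent.Q276.MW.A3
import Pool.Agent.Q276.MW.B5
import Pool.Agent.W280.WM.EF

/-! The weights at the zeros of the zeta function. -/

set_option autoImplicit false

open MeasureTheory Filter Topology Set ComplexConjugate

namespace Pool.Agent.Q276.MW

open Pool.Agent.TH223.AP Pool.Agent.Q276.MW.TB
open Pool.Agent.H295R2 (ww ee)
open Pool.Agent.W120.WM (ZC NT)
open Pool.Agent.W280.WM (fin_NT)

/-- the Riemann hypothesis and the simplicity of the zeros -/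
def SZ : Prop := ∀ ρ ∈ NT, ρ.re = 1 / 2 ∧ deriv riemannZeta ρ ≠ 0

/-- the weights -/
noncomputable def dz (ρ : NT) : ℝ := 1 / ‖deriv riemannZeta (ρ : ℂ)‖ ^ 2

/-- the ordinates -/
noncomputable def tz (ρ : NT) : ℝ := |(ρ : ℂ).im|

/-- the moment `J₋₁(T)` -/
noncomputable def JT (T : ℝ) : ℝ :=
  ∑' ρ : {s : ℂ | s ∈ NT ∧ 0 < s.im ∧ s.im ≤ T}, 1 / ‖deriv riemannZeta (ρ : ℂ)‖ ^ 2

lemma NT_countable : (NT : Set ℂ).Countable := by
  have h : (NT : Set ℂ) ⊆ ⋃ n : ℕ, {s : ℂ | s ∈ NT ∧ |s.im| ≤ n} := by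
    intro s hs
    rw [mem_iUnion]
    obtain ⟨n, hn⟩ := exists_nat_ge |s.im|
    exact ⟨n, hs, hn⟩
  exact (countable_iUnion fun n : ℕ => (fin_NT (n : ℝ)).countable).mono h

instance : Countable NT := NT_countable.to_subtype

lemma dz_nonneg (ρ : NT) : 0 ≤ dz ρ := by unfold dz; positivity

lemma tz_nonneg (ρ : NT) : 0 ≤ tz ρ := abs_nonneg _

lemma dz_eq (hS : SZ) (ρ : NT) :
    dz ρ / (1 / 4 + tz ρ ^ 2) = 1 / ‖(ρ : ℂ) * deriv riemannZeta ρ‖ ^ 2 := by
  unfold dz tz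
  have h1 : ‖(ρ : ℂ)‖ ^ 2 = 1 / 4 + |(ρ : ℂ).im| ^ 2 := by
    rw [← Complex.normSq_eq_norm_sq, Complex.normSq_apply, (hS ρ ρ.2).1, sq_abs]
    ring
  rw [norm_mul, mul_pow, h1, div_div, mul_comm]

lemma HY_of_ZC (hZ : ZC) : HY dz tz where
  d0 := dz_nonneg
  t0 := tz_nonneg
  sm := hZ.2.congr fun ρ => (dz_eq hZ.1 ρ).symm

lemma ZC_of_sm (hS : SZ) (h : Summable fun ρ : NT => dz ρ / (1 / 4 + tz ρ ^ 2)) : ZC :=
  ⟨hS, h.congr fun ρ => dz_eq hS ρ⟩

lemma conj_mem {ρ : ℂ} (h : ρ ∈ NT) : conj ρ ∈ NT := by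
  refine ⟨?_, ?_, ?_⟩
  · rw [riemannZeta_conj, h.1, map_zero]
  · rw [Complex.conj_re]; exact h.2.1
  · rw [Complex.conj_re]; exact h.2.2

lemma deriv_conj (ρ : ℂ) : deriv riemannZeta (conj ρ) = conj (deriv riemannZeta ρ) := by
  have h1 : (conj ∘ riemannZeta ∘ conj) = riemannZeta := by
    funext s
    simp only [Function.comp]
    rw [riemannZeta_conj, Complex.conj_conj]
  have h2 := deriv_conj_conj (f := riemannZeta)
  rw [h1] at h2
  have h3 := congrFun h2 ρ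
  simp only [Function.comp] at h3
  rw [h3, Complex.conj_conj]

lemma im_ne (hS : SZ) {ρ : ℂ} (h : ρ ∈ NT) : ρ.im ≠ 0 := by
  intro h0
  have h1 : ρ = 1 / 2 := by
    apply Complex.ext
    · rw [(hS ρ h).1]; norm_num
    · rw [h0]; norm_num
  have h2 := h.1
  rw [h1] at h2
  exact zeta_half_ne h2

lemma JT_eq (T : ℝ) : JT T = ∑ s ∈ (fin_NT T).toFinset.filter (fun s => 0 < s.im),
    1 / ‖deriv riemannZeta s‖ ^ 2 := by
  unfold JT
  have h0 := tsum_subtype {s : ℂ | s ∈ NT ∧ 0 < s.im ∧ s.im ≤ T} fun s => 1 / ‖deriv riemannZeta s‖ ^ 2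
  rw [h0, tsum_eq_sum (s := (fin_NT T).toFinset.filter (fun s => 0 < s.im))]
  · refine Finset.sum_congr rfl fun s hs => ?_
    rw [Finset.mem_filter, Set.Finite.mem_toFinset] at hs
    obtain ⟨⟨h1, h2⟩, h3⟩ := hs
    rw [indicator_of_mem]
    exact ⟨h1, h3, (le_abs_self _).trans h2⟩
  · intro s hs
    rw [indicator_of_notMem]
    rintro ⟨h1, h2, h3⟩
    apply hs
    rw [Finset.mem_filter, Set.Finite.mem_toFinset]
    exact ⟨⟨h1, by rw [abs_of_pos h2]; exact h3⟩, h2⟩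

lemma ind_sm (T : ℝ) : Summable fun ρ : NT => if tz ρ ≤ T then dz ρ else 0 := by
  refine summable_of_hasFiniteSupport ?_
  have h1 : (Function.support fun ρ : NT => if tz ρ ≤ T then dz ρ else 0) ⊆
      (fun ρ : NT => (ρ : ℂ)) ⁻¹' {s : ℂ | s ∈ NT ∧ |s.im| ≤ T} := by
    intro ρ hρ
    rw [Function.mem_support] at hρ
    by_contra hcon
    apply hρ
    rw [if_neg]
    intro h2
    exact hcon ⟨ρ.2, h2⟩
  exact ((fin_NT T).preimage (Subtype.val_injective.injOn)).subset h1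

/-- the counting function is twice the moment -/
lemma NN_eq (hS : SZ) (T : ℝ) : NN dz tz T = 2 * JT T := by
  classical
  have h1 : NN dz tz T = ∑ s ∈ (fin_NT T).toFinset, 1 / ‖deriv riemannZeta s‖ ^ 2 := by
    unfold NN
    have h0 := tsum_subtype (NT : Set ℂ) fun s => if |s.im| ≤ T then 1 / ‖deriv riemannZeta s‖ ^ 2 else 0
    have h2 : ∑' ρ : NT, (if tz ρ ≤ T then dz ρ else 0) =
        ∑' ρ : (NT : Set ℂ), (if |(ρ : ℂ).im| ≤ T then 1 / ‖deriv riemannZeta (ρ : ℂ)‖ ^ 2 else 0) := rfl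
    rw [h2, h0, tsum_eq_sum (s := (fin_NT T).toFinset)]
    · refine Finset.sum_congr rfl fun s hs => ?_
      rw [Set.Finite.mem_toFinset] at hs
      rw [indicator_of_mem hs.1, if_pos hs.2]
    · intro s hs
      rw [Set.Finite.mem_toFinset] at hs
      by_cases h3 : s ∈ NT
      · rw [indicator_of_mem h3, if_neg]
        exact fun h4 => hs ⟨h3, h4⟩
      · rw [indicator_of_notMem h3]
  have h2 := Finset.sum_filter_add_sum_filter_not (fin_NT T).toFinset (fun s => 0 < s.im)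
    (fun s => 1 / ‖deriv riemannZeta s‖ ^ 2)
  have h3 : ∑ s ∈ (fin_NT T).toFinset.filter (fun s => ¬ 0 < s.im), 1 / ‖deriv riemannZeta s‖ ^ 2 =
      ∑ s ∈ (fin_NT T).toFinset.filter (fun s => 0 < s.im), 1 / ‖deriv riemannZeta s‖ ^ 2 := by
    refine Finset.sum_nbij' (fun s => conj s) (fun s => conj s) ?_ ?_ ?_ ?_ ?_
    · intro s hs
      rw [Finset.mem_filter, Set.Finite.mem_toFinset] at hs ⊢
      obtain ⟨⟨h4, h5⟩, h6⟩ := hs
      refine ⟨⟨conj_mem h4, by rw [Complex.conj_im, abs_neg]; exact h5⟩, ?_⟩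
      rw [Complex.conj_im]
      have h7 := im_ne hS h4
      push Not at h6
      have : s.im < 0 := lt_of_le_of_ne h6 h7
      linarith
    · intro s hs
      rw [Finset.mem_filter, Set.Finite.mem_toFinset] at hs ⊢
      obtain ⟨⟨h4, h5⟩, h6⟩ := hs
      refine ⟨⟨conj_mem h4, by rw [Complex.conj_im, abs_neg]; exact h5⟩, ?_⟩
      rw [Complex.conj_im]
      linarith
    · intro s _
      exact Complex.conj_conj s
    · intro s _
      exact Complex.conj_conj s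
    · intro s _
      rw [deriv_conj, Complex.norm_conj]
  rw [h1, ← h2, h3, JT_eq]
  ring

lemma JT_nonneg (T : ℝ) : 0 ≤ JT T := tsum_nonneg fun ρ => by positivity

/-- finite sums over zeros -/
lemma sum_le_JT (hS : SZ) (F : Finset NT) (v : ℝ) : ∑ ρ ∈ F, (if tz ρ ≤ v then dz ρ else 0) ≤ 2 * JT v := by
  rw [← NN_eq hS v]
  refine (ind_sm v).sum_le_tsum F fun ρ _ => ?_
  split_ifs
  · exact dz_nonneg ρ
  · exact le_rfl

/-- the squared distance -/
lemma norm_cf_sq {α β a b : ℝ} {ρ : ℂ} (h : ρ.re = 1 / 2) :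
    ‖cf α β a b ρ‖ ^ 2 = α ^ 2 + β ^ 2 - 2 * α * β * Real.cos (|ρ.im| * (a - b)) := by
  have h1 : ∀ v : ℝ, ee ρ v = Complex.exp (((ρ.im * v : ℝ) : ℂ) * Complex.I) := by
    intro v
    unfold ee
    congr 1
    have h2 : ρ - 1 / 2 = ρ.im * Complex.I := by
      apply Complex.ext
      · simp [h]
      · simp
    rw [h2]
    push_cast
    ring
  have h3 : Real.cos (|ρ.im| * (a - b)) = Real.cos (ρ.im * a - ρ.im * b) := by
    rw [← mul_sub]
    rcases abs_choice ρ.im with h4 | h4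
    · rw [h4]
    · rw [h4, neg_mul, Real.cos_neg]
  rw [h3, Real.cos_sub]
  unfold cf
  rw [h1, h1, ← Complex.normSq_eq_norm_sq, Complex.normSq_apply]
  simp only [Complex.sub_re, Complex.sub_im, Complex.re_ofReal_mul, Complex.im_ofReal_mul,
    Complex.exp_ofReal_mul_I_re, Complex.exp_ofReal_mul_I_im]
  have e1 := Real.sin_sq_add_cos_sq (ρ.im * a)
  have e2 := Real.sin_sq_add_cos_sq (ρ.im * b)
  linear_combination α ^ 2 * e1 + β ^ 2 * e2

/-- the geometric mean of the endpoints -/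
noncomputable def sd (δ : ℝ) : ℝ := Real.sqrt (1 + δ / 2) * Real.sqrt (1 - δ / 2)

/-- the logarithmic length -/
noncomputable def hd (δ : ℝ) : ℝ := Real.log (1 + δ / 2) - Real.log (1 - δ / 2)

lemma DL_GG (hZ : ZC) {δ : ℝ} (hδ : 0 < δ) (hδ2 : δ < 2) :
    DL δ = sd δ * GG dz tz (hd δ) + (2 - 2 * sd δ) * WW dz tz := by
  have H := HY_of_ZC hZ
  rw [DL_eq hδ hδ2]
  unfold SG GG WW
  rw [← tsum_mul_left, ← tsum_mul_left, ← ((GG_sm H (hd δ)).mul_left _).tsum_add (H.sm.mul_left _)]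
  refine tsum_congr fun ρ => ?_
  rw [norm_cf_sq (hZ.1 ρ ρ.2).1, ← dz_eq hZ.1 ρ, Real.sq_sqrt (by linarith), Real.sq_sqrt (by linarith)]
  unfold sd hd tz
  ring

end Pool.Agent.Q276.MW
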